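import Mathlib

/-!
# Well-ordered sets of rationals under end-extension

`K` is the tree of all well-ordered subsets of `ℚ`, ordered by being an initial segment.
-/

namespace Pool.Agent.LipSmooth

open Set Filter Topology

/-- A node: a well-ordered set of rationals. -/
@[ext]
structure K where
  /-- the underlying set -/
  carrier : Set ℚ
  /-- it is well ordered -/
  wf : carrier.IsWF

namespace K

instance : Membership ℚ K := ⟨fun A q => q ∈ A.carrier⟩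

theorem mem_def {A : K} {q : ℚ} : q ∈ A ↔ q ∈ A.carrier := Iff.rfl

theorem ext' {A B : K} (h : ∀ q, q ∈ A ↔ q ∈ B) : A = B := by
  ext q; exact h q

/-- The elements below `q`. -/
def cut (A : K) (q : ℚ) : K := ⟨A.carrier ∩ Iio q, A.wf.mono inter_subset_left⟩

/-- Add the element `q`. -/
def ins (A : K) (q : ℚ) : K := ⟨insert q A.carrier, A.wf.insert q⟩

@[simp] theorem mem_cut {A : K} {q r : ℚ} : r ∈ A.cut q ↔ r ∈ A ∧ r < q := Iff.rfl

@[simp] theorem mem_ins {A : K} {q r : ℚ} : r ∈ A.ins q ↔ r = q ∨ r ∈ A := Iff.rfl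

/-- Initial segment order. -/
instance : PartialOrder K where
  le A B := (∀ a ∈ A, a ∈ B) ∧ ∀ a ∈ A, ∀ b ∈ B, b < a → b ∈ A
  le_refl A := ⟨fun _ ha => ha, fun _ _ _ hb _ => hb⟩
  le_trans A B C h1 h2 := ⟨fun a ha => h2.1 a (h1.1 a ha),
    fun a ha c hc hca => h1.2 a ha c (h2.2 a (h1.1 a ha) c hc hca) hca⟩
  le_antisymm A B h1 h2 := ext' fun q => ⟨h1.1 q, h2.1 q⟩

theorem le_def {A B : K} : A ≤ B ↔ (∀ a ∈ A, a ∈ B) ∧ ∀ a ∈ A, ∀ b ∈ B, b < a → b ∈ A := Iff.rfl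

theorem cut_le (A : K) (q : ℚ) : A.cut q ≤ A :=
  ⟨fun _ ha => ha.1, fun _ ha _ hb hba => ⟨hb, hba.trans ha.2⟩⟩

theorem cut_cut {A : K} {q r : ℚ} (h : r ≤ q) : (A.cut q).cut r = A.cut r :=
  ext' fun _ => ⟨fun hx => ⟨hx.1.1, hx.2⟩, fun hx => ⟨⟨hx.1, hx.2.trans_le h⟩, hx.2⟩⟩

theorem cut_lt {A : K} {q : ℚ} (hq : q ∈ A) : A.cut q < A := by
  refine lt_of_le_of_ne (cut_le A q) fun h => ?_
  rw [← h] at hq
  exact lt_irrefl q (mem_cut.1 hq).2

theorem cut_mono {A : K} {q r : ℚ} (h : r ≤ q) : A.cut r ≤ A.cut q := by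
  rw [← cut_cut h]; exact cut_le _ _

theorem cut_lt_cut {A : K} {q r : ℚ} (hr : r ∈ A) (h : r < q) : A.cut r < A.cut q := by
  rw [← cut_cut h.le]; exact cut_lt ⟨hr, h⟩

theorem cut_inj {A : K} {q r : ℚ} (hq : q ∈ A) (hr : r ∈ A) (h : A.cut q = A.cut r) : q = r := by
  rcases lt_trichotomy q r with h1 | h1 | h1
  · exact absurd h (cut_lt_cut hq h1).ne
  · exact h1
  · exact absurd h (cut_lt_cut hr h1).ne'

theorem lt_iff {A B : K} : A < B ↔ ∃ q ∈ B, A = B.cut q := by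
  constructor
  · intro h
    have hne : (B.carrier \ A.carrier).Nonempty := by
      by_contra hemp
      rw [not_nonempty_iff_eq_empty, sdiff_eq_empty] at hemp
      exact h.ne (ext' fun q => ⟨h.le.1 q, fun hq => hemp hq⟩)
    have hwf : (B.carrier \ A.carrier).IsWF := B.wf.mono sdiff_subset
    refine ⟨hwf.min hne, (hwf.min_mem hne).1, ext' fun x => ⟨fun hx => ⟨h.le.1 x hx, ?_⟩, ?_⟩⟩
    · by_contra hlt
      have hlt' : hwf.min hne ≤ x := not_lt.1 (fun h' => hlt h')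
      rcases hlt'.eq_or_lt with h1 | h1
      · have := (hwf.min_mem hne).2
        rw [h1] at this; exact this hx
      · exact (hwf.min_mem hne).2 (h.le.2 x hx _ (hwf.min_mem hne).1 h1)
    · rintro ⟨hxB, hxlt⟩
      by_contra hxA
      exact hwf.not_lt_min hne ⟨hxB, hxA⟩ hxlt
  · rintro ⟨q, hq, rfl⟩
    exact cut_lt hq

theorem le_iff {A B : K} : A ≤ B ↔ A = B ∨ ∃ q ∈ B, A = B.cut q := by
  rw [le_iff_eq_or_lt, lt_iff]

theorem le_total_of_le {A A' B : K} (h : A ≤ B) (h' : A' ≤ B) : A ≤ A' ∨ A' ≤ A := by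
  rcases le_iff.1 h with rfl | ⟨q, hq, rfl⟩
  · exact Or.inr h'
  rcases le_iff.1 h' with rfl | ⟨r, hr, rfl⟩
  · exact Or.inl (cut_le _ _)
  rcases le_total q r with h1 | h1
  · exact Or.inl (cut_mono h1)
  · exact Or.inr (cut_mono h1)

/-- Induction along the tree. -/
theorem induct {P : K → Prop} (h : ∀ B : K, (∀ q ∈ B, P (B.cut q)) → P B) (B : K) : P B := by
  apply h
  intro q hq
  refine B.wf.induction (P := fun q => P (B.cut q)) hq ?_
  intro r hr ih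
  apply h
  rintro s ⟨hs, hsr⟩
  rw [cut_cut hsr.le]
  exact ih s hs hsr

/-- `q` is above all elements of `A`. -/
def Above (A : K) (q : ℚ) : Prop := ∀ a ∈ A, a < q

theorem above_cut (B : K) (q : ℚ) : (B.cut q).Above q := fun _ ha => (mem_cut.1 ha).2

theorem ins_cut {A : K} {q : ℚ} (h : A.Above q) : (A.ins q).cut q = A := by
  refine ext' fun x => ⟨?_, fun hx => ⟨Or.inr hx, h x hx⟩⟩
  rintro ⟨h1 | h1, h2⟩
  · exact absurd h2 (by rw [h1]; exact fun h' => lt_irrefl q h')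
  · exact h1

theorem self_mem_ins (A : K) (q : ℚ) : q ∈ A.ins q := Or.inl rfl

theorem lt_ins {A : K} {q : ℚ} (h : A.Above q) : A < A.ins q := by
  have := cut_lt (self_mem_ins A q)
  rwa [ins_cut h] at this

/-- If `A ∪ {q}` is an initial segment of `B` then `q ∈ B` and `A = B ∩ (-∞,q)`. -/
theorem of_ins_le {A B : K} {q : ℚ} (h : A.Above q) (hle : A.ins q ≤ B) :
    q ∈ B ∧ A = B.cut q := by
  refine ⟨hle.1 q (self_mem_ins A q), ?_⟩
  rcases le_iff.1 hle with rfl | ⟨r, hr, hr'⟩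
  · rw [ins_cut h]
  · have hq : q ∈ B.cut r := by rw [← hr']; exact self_mem_ins A q
    rw [← cut_cut hq.2.le, ← hr', ins_cut h]

theorem ins_le_of {B : K} {q : ℚ} (hq : q ∈ B) : (B.cut q).ins q ≤ B := by
  refine ⟨?_, ?_⟩
  · rintro a (rfl | ha)
    · exact hq
    · exact ha.1
  · rintro a (rfl | ha) b hb hba
    · exact Or.inr ⟨hb, hba⟩
    · exact Or.inr ⟨hb, hba.trans ha.2⟩

theorem ins_injective {A : K} {q r : ℚ} (hq : A.Above q) (hr : A.Above r)
    (h : A.ins q = A.ins r) : q = r := by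
  have h1 : q ∈ A.ins r := by rw [← h]; exact self_mem_ins A q
  rcases h1 with h1 | h1
  · exact h1
  · exact absurd (hq q h1) (lt_irrefl _)

/-- What lies below `A ∪ {q}`. -/
theorem le_ins_iff {A C : K} {q : ℚ} (h : A.Above q) : C ≤ A.ins q ↔ C = A.ins q ∨ C ≤ A := by
  constructor
  · intro hC
    rcases le_iff.1 hC with h1 | ⟨r, hr, h1⟩
    · exact Or.inl h1
    · right
      rcases hr with hr | hr
      · rw [h1, hr, ins_cut h]
      · rw [h1, ← cut_cut (h r hr).le, ins_cut h]; exact cut_le _ _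
  · rintro (h1 | h1)
    · exact h1.le
    · exact h1.trans (lt_ins h).le

/-- The filter of eventual sets of elements of `B` (trivial if `B` is empty or has a maximum). -/
def ev (B : K) : Filter ℚ where
  sets := {S | (∃ q, q ∈ B) → ∃ q ∈ B, ∀ r ∈ B, q < r → r ∈ S}
  univ_sets := fun ⟨q, hq⟩ => ⟨q, hq, fun _ _ _ => mem_univ _⟩
  sets_of_superset := fun {S T} hS hST hB => by
    obtain ⟨q, hq, h⟩ := hS hB
    exact ⟨q, hq, fun r hr hqr => hST (h r hr hqr)⟩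
  inter_sets := fun {S T} hS hT hB => by
    obtain ⟨q, hq, h⟩ := hS hB
    obtain ⟨q', hq', h'⟩ := hT hB
    rcases le_total q q' with hle | hle
    · exact ⟨q', hq', fun r hr hqr => ⟨h r hr (hle.trans_lt hqr), h' r hr hqr⟩⟩
    · exact ⟨q, hq, fun r hr hqr => ⟨h r hr hqr, h' r hr (hle.trans_lt hqr)⟩⟩

theorem mem_ev {B : K} {S : Set ℚ} :
    S ∈ B.ev ↔ ((∃ q, q ∈ B) → ∃ q ∈ B, ∀ r ∈ B, q < r → r ∈ S) := Iff.rfl

theorem eventually_ev {B : K} {p : ℚ → Prop} :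
    (∀ᶠ r in B.ev, p r) ↔ ((∃ q, q ∈ B) → ∃ q ∈ B, ∀ r ∈ B, q < r → p r) := Iff.rfl

theorem ev_mem (B : K) : ∀ᶠ r in B.ev, r ∈ B := by
  rw [eventually_ev]
  rintro ⟨q, hq⟩
  exact ⟨q, hq, fun r hr _ => hr⟩

/-- The only nodes between `B.cut q` and its successor inside `B`. -/
theorem ins_cases {B : K} {q : ℚ} (hq : q ∈ B) :
    (B.cut q).ins q = B ∨ ∃ r ∈ B, q < r ∧ (B.cut q).ins q = B.cut r := by
  rcases le_iff.1 (ins_le_of hq) with h | ⟨r, hr, h⟩
  · exact Or.inl h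
  · refine Or.inr ⟨r, hr, ?_, h⟩
    have : q ∈ B.cut r := by rw [← h]; exact self_mem_ins _ _
    exact this.2

/-- Eventually along `B`, the only element of `{q > A}` with `A ∪ {q} ≤ C` (with `A = B.cut q'`)
is `q'`. -/
theorem ev_branch (B C : K) :
    ∀ᶠ q' in B.ev, ∀ q, (B.cut q').Above q → (B.cut q').ins q ≤ C → q = q' := by
  rw [eventually_ev]
  rintro ⟨q₀, hq₀⟩
  by_cases hbad : ∃ q₁ ∈ B, ∃ q, (B.cut q₁).Above q ∧ (B.cut q₁).ins q ≤ C ∧ q ≠ q₁
  · obtain ⟨q₁, hq₁, q, hab, hle, hne⟩ := hbad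
    refine ⟨q₁, hq₁, fun r hr hqr s hs hsle => ?_⟩
    exfalso
    apply hne
    obtain ⟨hqC, hcut⟩ := of_ins_le hab hle
    obtain ⟨hsC, hcut'⟩ := of_ins_le hs hsle
    have h1 : q₁ ∈ C.cut s := by rw [← hcut']; exact ⟨hq₁, hqr⟩
    have h2 : C.cut q₁ = B.cut q₁ := by
      rw [← cut_cut h1.2.le, ← hcut', cut_cut hqr.le]
    exact cut_inj hqC h1.1 (by rw [← hcut, h2])
  · push Not at hbad
    exact ⟨q₀, hq₀, fun r hr _ s hs hsle => hbad r hr s hs hsle⟩

end K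

/-- Discrete topology on nodes. -/
instance : TopologicalSpace K := ⊥
instance : DiscreteTopology K := ⟨rfl⟩

end Pool.Agent.LipSmooth
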