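import Mathlib

/-!
# Equivalent norms
-/

namespace Pool.Agent.LipSmooth

/-- `N` is an equivalent norm on the normed space `E`. -/
structure IsEquivNorm {E : Type*} [NormedAddCommGroup E] [NormedSpace ℝ E] (N : E → ℝ) :
    Prop where
  add_le : ∀ x y, N (x + y) ≤ N x + N y
  smul : ∀ (c : ℝ) x, N (c • x) = |c| * N x
  equiv : ∃ a b : ℝ, 0 < a ∧ a ≤ b ∧ ∀ x, a * ‖x‖ ≤ N x ∧ N x ≤ b * ‖x‖

end Pool.Agent.LipSmooth
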