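import Pool.Agent.LipSmooth.NonSmooth

/-!
# No Fréchet smooth norm: the contradiction
-/

namespace Pool.Agent.LipSmooth

open Set Filter Topology

namespace FunRep

variable {E : Type*} [NormedAddCommGroup E] [NormedSpace ℝ E] (P : FunRep E)
variable {N : E → ℝ}

/-- Supported on the branch `↓A`. -/
def On (A : K) (g : E) : Prop := ∀ C, ¬ C ≤ A → P.ev C g = 0

theorem fe_on (l : List (Option ℚ × ℚ)) (A : K) : P.On A (P.fe l A) :=
  fun _ hC => P.ev_fe_of_not_le hC

theorem on_add {A : K} {f g : E} (hf : P.On A f) (hg : P.On A g) : P.On A (f + g) :=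
  fun C hC => by rw [map_add, hf C hC, hg C hC, add_zero]

theorem on_sub {A : K} {f g : E} (hf : P.On A f) (hg : P.On A g) : P.On A (f - g) :=
  fun C hC => by rw [map_sub, hf C hC, hg C hC, sub_zero]

theorem on_smul {A : K} {f : E} (c : ℝ) (hf : P.On A f) : P.On A (c • f) :=
  fun C hC => by rw [map_smul, hf C hC, smul_zero]

theorem dd_on (o : Option ℚ) (A : K) : P.On A (P.dd o A) :=
  fun C hC => P.ev_dd_zero o A C fun h => hC h.1

/-- Lower bound for coded functions. -/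
theorem lower_fe (hN : IsEquivNorm N) {A : K}
    (h1 : ∀ l, ∀ δ > 0, ∃ a ∈ A, P.Nl N l A < P.Nl N l (A.cut a) + δ)
    (h2 : ∀ l, N (P.fe l A) ≤ P.Nl N l A) (l : List (Option ℚ × ℚ)) {η : ℝ} (hη : 0 < η) :
    ∃ a ∈ A, ∀ g, P.On A g → (∀ C ≤ A.cut a, P.ev C g = P.ev C (P.fe l A)) →
      N (P.fe l A) - η ≤ N g := by
  obtain ⟨a, ha, hlt⟩ := h1 l η hη
  refine ⟨a, ha, fun g hg hag => ?_⟩
  have hsupp : P.SuppAbove (A.cut a) (g - P.fe l (A.cut a)) := by
    intro C hC
    rw [map_sub]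
    rcases not_lt_cases hC with h | ⟨h3, h4⟩
    · rw [hag C h, P.ev_fe_of_le h, P.ev_fe_of_le (h.trans (K.cut_le A a)), sub_self]
    · have h5 : ¬ C ≤ A := fun h => by
        rcases K.le_total_of_le h (K.cut_le A a) with h6 | h6
        · exact h3 h6
        · exact h4 h6
      rw [hg C h5, P.ev_fe_of_not_le h3, sub_self]
  have h3 := P.Nl_le hN (l := l) hsupp
  rw [add_sub_cancel] at h3
  linarith [h2 l]

/-- The closed space spanned by the coded functions. -/
def V (A : K) : Set E := closure (range fun l => P.fe l A)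

theorem V_on {A : K} {f : E} (hf : f ∈ P.V A) : P.On A f := by
  intro C hC
  have hcl : IsClosed {f : E | P.ev C f = 0} := isClosed_eq (P.ev C).continuous continuous_const
  have hsub : (range fun l => P.fe l A) ⊆ {f : E | P.ev C f = 0} := by
    rintro _ ⟨l, rfl⟩
    exact P.ev_fe_of_not_le hC
  exact closure_minimal hsub hcl hf

theorem V_add {A : K} {f : E} (hf : f ∈ P.V A) (o : Option ℚ) (τ : ℚ) :
    f + (τ : ℝ) • P.dd o A ∈ P.V A := by
  have hc : Continuous fun f : E => f + (τ : ℝ) • P.dd o A := by fun_prop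
  have hm : MapsTo (fun f : E => f + (τ : ℝ) • P.dd o A) (range fun l => P.fe l A)
      (range fun l => P.fe l A) := by
    rintro _ ⟨l, rfl⟩
    exact ⟨(o, τ) :: l, rfl⟩
  exact hm.closure hc hf

theorem one_mem_V (A : K) : P.dd none A ∈ P.V A := by
  refine subset_closure ⟨[(none, 1)], ?_⟩
  simp [fe]

theorem lower_V (hN : IsEquivNorm N) {A : K}
    (h1 : ∀ l, ∀ δ > 0, ∃ a ∈ A, P.Nl N l A < P.Nl N l (A.cut a) + δ)
    (h2 : ∀ l, N (P.fe l A) ≤ P.Nl N l A) {f : E} (hf : f ∈ P.V A) {η : ℝ} (hη : 0 < η) :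
    ∃ a ∈ A, ∀ g, P.On A g → (∀ C ≤ A.cut a, P.ev C g = P.ev C f) → N f - η ≤ N g := by
  obtain ⟨a₀, b, ha₀, hb, hlow, hup⟩ := N_le_of hN
  obtain ⟨_, ⟨l, rfl⟩, hl⟩ := Metric.mem_closure_iff.1 hf (η / (4 * b)) (by positivity)
  rw [dist_eq_norm, norm_sub_rev] at hl
  have hbl : b * ‖P.fe l A - f‖ ≤ η / 4 := by
    rw [lt_div_iff₀ (by positivity)] at hl
    linarith
  obtain ⟨a, ha, hlb⟩ := P.lower_fe hN h1 h2 l (half_pos hη)
  refine ⟨a, ha, fun g hg hag => ?_⟩
  have h3 := hlb (g + (P.fe l A - f)) (P.on_add hg (P.on_sub (P.fe_on l A) (P.V_on hf)))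
    (fun C hC => by rw [map_add, map_sub, hag C hC]; ring)
  have h4 := hN.add_le g (P.fe l A - f)
  have h5 := hup (P.fe l A - f)
  have h6 : N f ≤ N (P.fe l A) + b * ‖P.fe l A - f‖ := by
    have h7 := hN.add_le (P.fe l A) (f - P.fe l A)
    rw [add_sub_cancel] at h7
    have h8 := hup (f - P.fe l A)
    rw [norm_sub_rev] at h8
    linarith
  linarith

/-- Differentiability gives a cheap direction. -/
theorem cheap (hN : IsEquivNorm N) {A : K}
    (h1 : ∀ l, ∀ δ > 0, ∃ a ∈ A, P.Nl N l A < P.Nl N l (A.cut a) + δ)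
    (h2 : ∀ l, N (P.fe l A) ≤ P.Nl N l A) {f : E} (hf : f ∈ P.V A)
    (hd : DifferentiableAt ℝ N f) {ε : ℝ} (hε : 0 < ε) :
    ∃ τ : ℚ, 0 < τ ∧ ∃ a ∈ A, N (f + (τ : ℝ) • P.dd (some a) A) ≤ N f + 3 * ε * τ := by
  obtain ⟨L, hL⟩ := hd
  have hL' := hL.isLittleO.def hε
  rw [Metric.eventually_nhds_iff] at hL'
  obtain ⟨δ, hδ, hball⟩ := hL'
  obtain ⟨τ, hτ0, hτδ⟩ := exists_rat_btwn hδ
  have hτ : (0 : ℝ) < τ := by exact_mod_cast hτ0
  obtain ⟨a, ha, hlb⟩ := P.lower_V hN h1 h2 hf (mul_pos hε hτ)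
  refine ⟨τ, by exact_mod_cast hτ, a, ha, ?_⟩
  have hnorm : ‖(τ : ℝ) • P.dd (some a) A‖ ≤ τ := by
    rw [norm_smul, Real.norm_eq_abs, abs_of_pos hτ]
    have := mul_le_mul_of_nonneg_left (P.norm_dd_le (some a) A) hτ.le
    linarith
  have hlow := hlb (f - (τ : ℝ) • P.dd (some a) A)
    (P.on_sub (P.V_on hf) (P.on_smul _ (P.dd_on _ _))) (fun C hC => by
      rw [map_sub, map_smul, P.ev_dd_zero, smul_zero, sub_zero]
      rintro ⟨_, h⟩
      exact lt_irrefl a (hC.1 a (h a rfl)).2)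
  have e1 := hball (y := f + (τ : ℝ) • P.dd (some a) A) (by
    rw [dist_eq_norm, add_sub_cancel_left]; linarith)
  have e2 := hball (y := f - (τ : ℝ) • P.dd (some a) A) (by
    rw [dist_eq_norm, sub_sub_cancel_left, norm_neg]; linarith)
  rw [add_sub_cancel_left] at e1
  rw [sub_sub_cancel_left, map_neg, norm_neg] at e2
  rw [Real.norm_eq_abs, abs_le] at e1 e2
  have h3 : ε * ‖(τ : ℝ) • P.dd (some a) A‖ ≤ ε * τ := mul_le_mul_of_nonneg_left hnorm hε.le
  nlinarith [e1.2, e2.2]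

theorem not_smooth [CompleteSpace E] (P : FunRep E) (hN : IsEquivNorm N)
    (hd : ∀ f, f ≠ 0 → DifferentiableAt ℝ N f) : False := by
  obtain ⟨A, hne, h1, h2'⟩ := P.exists_good hN
  have h2 : ∀ l, N (P.fe l A) ≤ P.Nl N l A := fun l => P.averaging hN (h2' l)
  obtain ⟨κ, b, hκ, hb, hlow, hup⟩ := N_le_of hN
  have hclosed : IsClosed (P.V A) := isClosed_closure
  haveI : CompleteSpace (P.V A) := hclosed.completeSpace_coe
  have hNcont : Continuous N := by
    have hlip : LipschitzWith (Real.toNNReal b) N := by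
      refine LipschitzWith.of_le_add_mul _ fun x y => ?_
      have h3 := hN.add_le y (x - y)
      rw [add_sub_cancel] at h3
      have h4 := hup (x - y)
      rw [Real.coe_toNNReal b hb.le, dist_eq_norm]
      linarith
    exact hlip.continuous
  set h : P.V A → ℝ := fun f => P.ev A f.1 with hh
  have hhc : Continuous h := (P.ev A).continuous.comp continuous_subtype_val
  set f₀ : P.V A := ⟨P.dd none A, P.one_mem_V A⟩ with hf₀
  have hh0 : h f₀ = 1 := P.ev_dd_one none A A le_rfl (fun a ha => by simp at ha)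
  have hge : ∀ g : P.V A, dist f₀ g ≤ h g - h f₀ → 1 ≤ h g := fun g hg => by
    have := (dist_nonneg (x := f₀) (y := g)).trans hg
    linarith
  refine greedy h (fun f => N f.1) hhc (hNcont.comp continuous_subtype_val) (κ / 2) f₀
    (2 * N f₀.1 / κ) ?_ ?_
  · intro g hg1 hg2
    have h3 := hge g hg1
    have h4 := hlow g.1
    have h5 : h g ≤ ‖g.1‖ := (le_abs_self _).trans (P.le A g.1)
    have h6 := mul_le_mul_of_nonneg_left h5 hκ.le
    rw [le_div_iff₀ hκ]
    rw [hh0] at hg2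
    nlinarith
  · intro f hf1 hf2
    have h3 := hge f hf1
    have hf0 : f.1 ≠ 0 := by
      intro h4
      have : h f = 0 := by simp only [hh]; rw [h4, map_zero]
      linarith
    obtain ⟨τ, hτ, a, ha, hle⟩ := P.cheap hN h1 h2 f.2 (hd f.1 hf0) (ε := κ / 6) (by positivity)
    have hτ' : (0 : ℝ) < τ := by exact_mod_cast hτ
    have hheight : h ⟨f.1 + (τ : ℝ) • P.dd (some a) A, P.V_add f.2 _ _⟩ - h f = τ := by
      simp only [hh]
      rw [map_add, map_smul, P.ev_dd_one (some a) A A le_rfl (fun x hx => by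
        rw [← Option.some_injective _ hx]; exact ha)]
      simp
    refine ⟨⟨f.1 + (τ : ℝ) • P.dd (some a) A, P.V_add f.2 _ _⟩, ?_, ?_, ?_⟩
    · rw [hheight, Subtype.dist_eq, dist_eq_norm]
      simp only
      rw [sub_add_cancel_left, norm_neg, norm_smul, Real.norm_eq_abs, abs_of_pos hτ']
      have := mul_le_mul_of_nonneg_left (P.norm_dd_le (some a) A) hτ'.le
      linarith
    · rw [hheight]
      simp only
      linarith
    · linarith

end FunRep

end Pool.Agent.LipSmooth
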