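import Pool.Agent.LipSmooth.Norm

/-!
# Smooth norms from Talagrand-type operators
-/

namespace Pool.Agent.LipSmooth

open Set Filter Topology Metric
open scoped ContDiff

section glue

variable {E : Type*} [NormedAddCommGroup E] [NormedSpace ℝ E]
variable {L : Type*} (φ γ : L → E →L[ℝ] ℝ)

/-- The smooth convex function on the ball. -/
noncomputable def Psi (x : E) : ℝ := ∑' i : ℕ × L, Th i.1 (φ i.2 x) (γ i.2 x)

variable {φ γ}

theorem locfin (hφ : ∀ l x, |φ l x| ≤ ‖x‖) (hγ : ∀ l x, |γ l x| ≤ 2 * ‖x‖)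
    (hfin : ∀ x, ∀ ε > 0, {l | ε ≤ |γ l x|}.Finite) (x₀ : E) (hx₀ : ‖x₀‖ < 1) :
    ∃ s : Finset (ℕ × L), ∀ᶠ x in 𝓝 x₀, ∀ i ∉ s, Th i.1 (φ i.2 x) (γ i.2 x) = 0 := by
  classical
  set δ := (1 - ‖x₀‖) / 4 with hδ
  have hδpos : 0 < δ := by rw [hδ]; linarith
  obtain ⟨m, hm⟩ := exists_nat_gt (2 / (3 * δ))
  refine ⟨(Finset.range (m + 1)) ×ˢ (hfin x₀ δ hδpos).toFinset, ?_⟩
  filter_upwards [Metric.ball_mem_nhds x₀ hδpos] with x hx i hi
  rw [mem_ball, dist_eq_norm] at hx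
  by_contra hne
  apply hi
  have hxn : ‖x‖ < 1 - 3 * δ := by
    have := norm_le_norm_add_norm_sub' x x₀
    have h' : ‖x₀‖ = 1 - 4 * δ := by rw [hδ]; ring
    linarith
  have h1 : ((i.1 : ℝ)) ^ 2 + 1 < (i.1 : ℝ) ^ 2 * |φ i.2 x| + i.1 * |γ i.2 x| := by
    by_contra hle
    exact hne (Th_eq_zero (not_lt.1 hle))
  have hn0 : (0 : ℝ) ≤ i.1 := Nat.cast_nonneg _
  have h2 : (i.1 : ℝ) ^ 2 * |φ i.2 x| ≤ (i.1 : ℝ) ^ 2 * (1 - 3 * δ) :=
    mul_le_mul_of_nonneg_left ((hφ _ _).trans hxn.le) (sq_nonneg _)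
  have h3 : (i.1 : ℝ) ^ 2 * (3 * δ) + 1 < i.1 * |γ i.2 x| := by nlinarith
  have hnpos : (0 : ℝ) < i.1 := by
    rcases hn0.eq_or_lt with h | h
    · rw [← h] at h3; norm_num at h3
    · exact h
  have h4 : (i.1 : ℝ) * (3 * δ) < |γ i.2 x| := by
    have : (i.1 : ℝ) * ((i.1 : ℝ) * (3 * δ)) < i.1 * |γ i.2 x| := by nlinarith
    exact lt_of_mul_lt_mul_left this hn0
  have hn1 : (1 : ℝ) ≤ i.1 := by
    have : 0 < i.1 := by exact_mod_cast hnpos
    exact_mod_cast this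
  rw [Finset.mem_product]
  constructor
  · rw [Finset.mem_range, Nat.lt_succ_iff]
    have h5 : |γ i.2 x| ≤ 2 := by
      have := hγ i.2 x
      nlinarith
    have h6 : (i.1 : ℝ) < 2 / (3 * δ) := by
      rw [lt_div_iff₀ (by positivity)]
      linarith
    exact_mod_cast (h6.trans hm).le
  · rw [Set.Finite.mem_toFinset]
    show δ ≤ |γ i.2 x₀|
    have h7 : |γ i.2 x - γ i.2 x₀| ≤ 2 * δ := by
      rw [← map_sub]
      have := hγ i.2 (x - x₀)
      nlinarith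
    have h8 := abs_sub_abs_le_abs_sub (γ i.2 x) (γ i.2 x₀)
    nlinarith

/-- Haydon's theorem for Talagrand-type operators. -/
theorem exists_smooth_norm [CompleteSpace E]
    (hφ : ∀ l x, |φ l x| ≤ ‖x‖) (hγ : ∀ l x, |γ l x| ≤ 2 * ‖x‖)
    (hfin : ∀ x, ∀ ε > 0, {l | ε ≤ |γ l x|}.Finite)
    (hT : ∀ x, x ≠ 0 → ∃ l, |φ l x| = ‖x‖ ∧ γ l x ≠ 0) :
    ∃ N : E → ℝ, IsEquivNorm N ∧ ∀ x, x ≠ 0 → ContDiffAt ℝ ∞ N x := by
  classical
  have hsum : ∀ x : E, ‖x‖ < 1 → ∃ s : Finset (ℕ × L), ∀ i ∉ s,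
      Th i.1 (φ i.2 x) (γ i.2 x) = 0 := by
    intro x hx
    obtain ⟨s, hs⟩ := locfin hφ hγ hfin x hx
    exact ⟨s, hs.self_of_nhds⟩
  have hsummable : ∀ x : E, ‖x‖ < 1 →
      Summable (fun i : ℕ × L => Th i.1 (φ i.2 x) (γ i.2 x)) := by
    intro x hx
    obtain ⟨s, hs⟩ := hsum x hx
    exact summable_of_ne_finset_zero (s := s) hs
  refine exists_smooth_of_convex (Psi φ γ) ?_ ?_ ?_ ?_ ?_
  · intro x₀ hx₀
    obtain ⟨s, hs⟩ := locfin hφ hγ hfin x₀ hx₀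
    have hcd : ContDiffAt ℝ ∞ (fun x => ∑ i ∈ s, Th i.1 (φ i.2 x) (γ i.2 x)) x₀ := by
      refine ContDiffAt.sum fun i _ => ?_
      have h1 : ContDiffAt ℝ ∞ (fun x : E => (φ i.2 x, γ i.2 x)) x₀ :=
        ((φ i.2).contDiff.contDiffAt).prodMk ((γ i.2).contDiff.contDiffAt)
      exact ContDiffAt.comp x₀ (Th_contDiff i.1).contDiffAt h1
    refine hcd.congr_of_eventuallyEq ?_
    filter_upwards [hs] with x hx
    exact tsum_eq_sum hx
  · refine ⟨convex_ball _ _, ?_⟩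
    intro x hx y hy a b ha hb hab
    have hx' : ‖x‖ < 1 := by simpa using hx
    have hy' : ‖y‖ < 1 := by simpa using hy
    have hz' : ‖a • x + b • y‖ < 1 := by
      have := convex_ball (0 : E) 1 hx hy ha hb hab
      simpa using this
    simp only [smul_eq_mul]
    unfold Psi
    rw [← tsum_mul_left, ← tsum_mul_left, ← ((hsummable x hx').mul_left a).tsum_add
      ((hsummable y hy').mul_left b)]
    refine (hsummable _ hz').tsum_le_tsum ?_ (((hsummable x hx').mul_left a).add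
      ((hsummable y hy').mul_left b))
    intro i
    have := Th_convex i.1 ha hb hab (φ i.2 x) (φ i.2 y) (γ i.2 x) (γ i.2 y)
    simpa [map_add, map_smul] using this
  · intro x
    unfold Psi
    refine tsum_congr fun i => ?_
    rw [map_neg, map_neg, Th_neg]
  · unfold Psi
    have h0 : ∀ i : ℕ × L, Th i.1 (φ i.2 (0 : E)) (γ i.2 (0 : E)) = 0 := by
      intro i
      refine Th_eq_zero ?_
      simp only [map_zero, abs_zero, mul_zero, add_zero]
      positivity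
    rw [tsum_congr h0, tsum_zero]
  · intro x hx
    have hx0 : x ≠ 0 := by
      intro h; rw [h, norm_zero] at hx; exact zero_ne_one hx
    obtain ⟨l, hl1, hl2⟩ := hT x hx0
    have hβ : 0 < |γ l x| := abs_pos.2 hl2
    obtain ⟨n, hn⟩ := exists_nat_gt (2 / |γ l x|)
    rw [div_lt_iff₀ hβ] at hn
    have hgt : 1 < Th n (φ l x) (γ l x) := by
      refine Th_gt ?_
      rw [hl1, hx]; nlinarith
    have hcont : ContinuousAt (fun t : ℝ => Th n (φ l (t • x)) (γ l (t • x))) 1 := by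
      have h1 : Continuous (fun t : ℝ => (φ l (t • x), γ l (t • x))) := by fun_prop
      exact ((Th_contDiff n).continuous.comp h1).continuousAt
    have hev : ∀ᶠ t in 𝓝[<] (1 : ℝ), 1 < Th n (φ l (t • x)) (γ l (t • x)) := by
      have : ∀ᶠ t in 𝓝 (1 : ℝ), 1 < Th n (φ l (t • x)) (γ l (t • x)) := by
        refine hcont.eventually (lt_mem_nhds ?_)
        simpa using hgt
      exact nhdsWithin_le_nhds this
    have hmem : ∀ᶠ t in 𝓝[<] (1 : ℝ), t ∈ Ioo (0 : ℝ) 1 := Ioo_mem_nhdsLT one_pos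
    obtain ⟨t, ht, ht0, ht1⟩ := (hev.and hmem).exists
    refine ⟨t, ht0, ht1, ht.trans_le ?_⟩
    have hnorm : ‖t • x‖ < 1 := by
      rw [norm_smul, hx, mul_one, Real.norm_eq_abs, abs_of_pos ht0]; exact ht1
    exact (hsummable _ hnorm).le_tsum (n, l) (fun i _ => Th_nonneg _ _ _)

end glue

end Pool.Agent.LipSmooth
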