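import Pool.Agent.LipSmooth.Spaces
import Pool.Agent.LipSmooth.Glue

/-!
# The Talagrand operator on `X0` and its smooth norm
-/

namespace Pool.Agent.LipSmooth

open Set Filter Topology BoundedContinuousFunction
open scoped ContDiff

variable {F : BoundedContinuousFunction (K × ℕ) ℝ}

theorem abs_le_norm (F : BoundedContinuousFunction (K × ℕ) ℝ) (t : K × ℕ) : |F t| ≤ ‖F‖ := by
  rw [← Real.norm_eq_abs]; exact F.norm_coe_le_norm t

theorem fin_chain (hF : F ∈ X0) (n : ℕ) {ε : ℝ} (hε : 0 < ε) (B : K) :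
    {A : K | A ≤ B ∧ ε ≤ |F (A, n) - F (A, n + 1)|}.Finite := by
  refine K.induct (P := fun B => {A : K | A ≤ B ∧ ε ≤ |F (A, n) - F (A, n + 1)|}.Finite) ?_ B
  intro B ih
  by_cases hne : ∃ q, q ∈ B
  · obtain ⟨q₀, hq₀, h⟩ := (K.eventually_ev.1 (X0_lim hF B (half_pos hε))) hne
    refine (((finite_singleton B).union (ih q₀ hq₀)).union
      ((enc_finite n).image B.cut)).subset ?_
    rintro A ⟨hA, hεA⟩
    rcases K.le_iff.1 hA with rfl | ⟨q, hq, rfl⟩
    · exact Or.inl (Or.inl rfl)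
    · rcases le_or_gt q q₀ with hle | hlt
      · exact Or.inl (Or.inr ⟨K.cut_mono hle, hεA⟩)
      · refine Or.inr ⟨q, ?_, rfl⟩
        by_contra hn
        have hn' : n + 1 ≤ enc q := by
          have h' : ¬ enc q ≤ n := hn
          omega
        have h1 := h q hq hlt n (by omega)
        have h2 := h q hq hlt (n + 1) hn'
        rw [abs_lt] at h1 h2
        have : |F (B.cut q, n) - F (B.cut q, n + 1)| < ε := by
          rw [abs_lt]; constructor <;> linarith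
        linarith
  · refine (finite_singleton B).subset ?_
    rintro A ⟨hA, _⟩
    rcases K.le_iff.1 hA with rfl | ⟨q, hq, rfl⟩
    · exact rfl
    · exact absurd ⟨q, hq⟩ hne

theorem fin_level (hF : F ∈ X0) (n : ℕ) {ε : ℝ} (hε : 0 < ε) :
    {A : K | ε ≤ |F (A, n) - F (A, n + 1)|}.Finite := by
  obtain ⟨s, hs⟩ := X0_cov hF (half_pos hε)
  refine ((s.finite_toSet.biUnion fun u _ => fin_chain hF n hε u.1)).subset ?_
  intro A hA
  have hA' : ε ≤ |F (A, n) - F (A, n + 1)| := hA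
  rw [mem_iUnion₂]
  by_cases h1 : ε / 2 ≤ |F (A, n)|
  · obtain ⟨u, hu, hle⟩ := hs _ h1
    exact ⟨u, hu, hle.le, hA⟩
  · by_cases h2 : ε / 2 ≤ |F (A, n + 1)|
    · obtain ⟨u, hu, hle⟩ := hs _ h2
      exact ⟨u, hu, hle.le, hA⟩
    · exfalso
      have := abs_sub (F (A, n)) (F (A, n + 1))
      linarith [not_le.1 h1, not_le.1 h2]

/-- The weighted difference. -/
noncomputable def gam (F : BoundedContinuousFunction (K × ℕ) ℝ) (l : K × ℕ) : ℝ :=
  (1 / 2) ^ l.2 * (F l - F (l.1, l.2 + 1))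

theorem gam_le (F : BoundedContinuousFunction (K × ℕ) ℝ) (l : K × ℕ) :
    |gam F l| ≤ (1 / 2) ^ l.2 * (2 * ‖F‖) := by
  unfold gam
  rw [abs_mul, abs_of_nonneg (by positivity : (0 : ℝ) ≤ (1 / 2) ^ l.2)]
  refine mul_le_mul_of_nonneg_left ?_ (by positivity)
  have := abs_sub (F l) (F (l.1, l.2 + 1))
  linarith [abs_le_norm F l, abs_le_norm F (l.1, l.2 + 1)]

theorem gam_le' (F : BoundedContinuousFunction (K × ℕ) ℝ) (l : K × ℕ) :
    |gam F l| ≤ 2 * ‖F‖ := by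
  refine (gam_le F l).trans ?_
  have h1 : ((1 : ℝ) / 2) ^ l.2 ≤ 1 := pow_le_one₀ (by norm_num) (by norm_num)
  nlinarith [norm_nonneg F]

theorem gam_fin (hF : F ∈ X0) {ε : ℝ} (hε : 0 < ε) : {l | ε ≤ |gam F l|}.Finite := by
  obtain ⟨m, hm⟩ : ∃ m : ℕ, ((1 : ℝ) / 2) ^ m * (2 * ‖F‖) < ε := by
    have h1 : Tendsto (fun m : ℕ => ((1 : ℝ) / 2) ^ m * (2 * ‖F‖)) atTop (𝓝 (0 * (2 * ‖F‖))) :=
      (tendsto_pow_atTop_nhds_zero_of_lt_one (by norm_num) (by norm_num)).mul_const _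
    rw [zero_mul] at h1
    exact (h1.eventually (gt_mem_nhds hε)).exists
  have hfin : (⋃ n ∈ Finset.range m, (fun A : K => (A, n)) ''
      {A : K | ε ≤ |F (A, n) - F (A, n + 1)|}).Finite :=
    (Finset.finite_toSet _).biUnion fun n _ => (fin_level hF n hε).image _
  refine hfin.subset ?_
  rintro ⟨A, n⟩ hl
  have hl' : ε ≤ |gam F (A, n)| := hl
  rw [mem_iUnion₂]
  refine ⟨n, ?_, A, ?_, rfl⟩
  · rw [Finset.mem_range]
    by_contra hn
    have h1 := gam_le F (A, n)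
    have h2 : ((1 : ℝ) / 2) ^ n ≤ (1 / 2) ^ m :=
      pow_le_pow_of_le_one (by norm_num) (by norm_num) (not_lt.1 hn)
    have h3 := mul_le_mul_of_nonneg_right h2 (by positivity : (0 : ℝ) ≤ 2 * ‖F‖)
    simp only at h1
    linarith
  · show ε ≤ |F (A, n) - F (A, n + 1)|
    refine hl'.trans ?_
    unfold gam
    rw [abs_mul, abs_of_nonneg (by positivity : (0 : ℝ) ≤ (1 / 2) ^ n)]
    have h1 : ((1 : ℝ) / 2) ^ n ≤ 1 := pow_le_one₀ (by norm_num) (by norm_num)
    nlinarith [abs_nonneg (F (A, n) - F (A, n + 1))]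

theorem col_bound {M : ℝ} (h : ∀ t, |F t| < M) (A : K) (N : ℕ) :
    ∃ m < M, ∀ n ≤ N, |F (A, n)| ≤ m := by
  induction N with
  | zero => exact ⟨|F (A, 0)|, h _, fun n hn => by rw [Nat.le_zero.1 hn]⟩
  | succ N ih =>
    obtain ⟨m, hm, hb⟩ := ih
    refine ⟨max m |F (A, N + 1)|, max_lt hm (h _), fun n hn => ?_⟩
    rcases Nat.le_succ_iff.1 hn with h1 | h1
    · exact (hb n h1).trans (le_max_left _ _)
    · rw [h1]; exact le_max_right _ _

theorem chain_bound (hF : F ∈ X0) {M : ℝ} (h : ∀ t, |F t| < M) (B : K) :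
    ∃ m < M, ∀ t, leT t (B, 0) → |F t| ≤ m := by
  refine K.induct (P := fun B => ∃ m < M, ∀ t, leT t (B, 0) → |F t| ≤ m) ?_ B
  intro B ih
  by_cases hne : ∃ q, q ∈ B
  · have hε : 0 < (M - |F (B, 0)|) / 2 := by have := h (B, 0); linarith
    obtain ⟨q₀, hq₀, hq⟩ := (K.eventually_ev.1 (X0_lim hF B hε)) hne
    obtain ⟨m₁, hm₁, hb₁⟩ := ih q₀ hq₀
    obtain ⟨m₂, hm₂, hb₂⟩ := col_bound h (B.cut q₀) (enc q₀)
    have hm₃ : (M + |F (B, 0)|) / 2 < M := by have := h (B, 0); linarith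
    refine ⟨max (max m₁ m₂) ((M + |F (B, 0)|) / 2), max_lt (max_lt hm₁ hm₂) hm₃, ?_⟩
    rintro ⟨A, n⟩ ht
    rcases ht with ⟨h1, h2⟩ | ⟨q, hqB, h1, h2⟩
    · simp only at h1 h2
      rw [h1, Nat.le_zero.1 h2]
      refine le_trans ?_ (le_max_right _ _)
      have := h (B, 0); linarith
    · simp only at hqB h1 h2
      subst h1
      rcases lt_trichotomy q q₀ with hlt | heq | hgt
      · refine le_trans (hb₁ _ ?_) ((le_max_left _ _).trans (le_max_left _ _))
        refine Or.inr ⟨q, ⟨hqB, hlt⟩, ?_, h2⟩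
        show B.cut q = (B.cut q₀).cut q
        rw [K.cut_cut hlt.le]
      · subst heq
        exact (hb₂ n h2).trans ((le_max_right _ _).trans (le_max_left _ _))
      · refine le_trans ?_ (le_max_right _ _)
        have h3 := hq q hqB hgt n h2
        have h4 : |F (B.cut q, n)| ≤ |F (B.cut q, n) - F (B, 0)| + |F (B, 0)| := by
          have := abs_add_le (F (B.cut q, n) - F (B, 0)) (F (B, 0))
          simpa using this
        linarith
  · refine ⟨|F (B, 0)|, h _, ?_⟩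
    rintro ⟨A, n⟩ ht
    rcases ht with ⟨h1, h2⟩ | ⟨q, hqB, _, _⟩
    · simp only at h1 h2
      rw [h1, Nat.le_zero.1 h2]
    · exact absurd ⟨q, hqB⟩ hne

theorem cover_bound (hF : F ∈ X0) {M : ℝ} (h : ∀ t, |F t| < M) (hM : 0 < M)
    (s : Finset (K × ℕ)) : ∃ m, 0 ≤ m ∧ m < M ∧ ∀ u ∈ s, ∀ t, leT t u → |F t| ≤ m := by
  classical
  induction s using Finset.induction_on with
  | empty => exact ⟨0, le_rfl, hM, fun u hu => absurd hu (Finset.notMem_empty u)⟩
  | insert u s _ ih =>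
    obtain ⟨m, hm0, hm, hb⟩ := ih
    obtain ⟨m₁, hm₁, hb₁⟩ := chain_bound hF h u.1
    obtain ⟨m₂, hm₂, hb₂⟩ := col_bound h u.1 u.2
    refine ⟨max m (max m₁ m₂), hm0.trans (le_max_left _ _), max_lt hm (max_lt hm₁ hm₂), ?_⟩
    intro v hv t ht
    rcases Finset.mem_insert.1 hv with rfl | hv
    · rcases ht with ⟨h1, h2⟩ | h1
      · have : t = (v.1, t.2) := Prod.ext h1 rfl
        rw [this]
        exact (hb₂ _ h2).trans ((le_max_right _ _).trans (le_max_right _ _))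
      · exact (hb₁ t (Or.inr h1)).trans ((le_max_left _ _).trans (le_max_right _ _))
    · exact (hb v hv t ht).trans (le_max_left _ _)

theorem attained (hF : F ∈ X0) (hne : F ≠ 0) : ∃ t, |F t| = ‖F‖ := by
  by_contra hcon
  push Not at hcon
  have h : ∀ t, |F t| < ‖F‖ := fun t => lt_of_le_of_ne (abs_le_norm F t) (hcon t)
  have hM : 0 < ‖F‖ := norm_pos_iff.2 hne
  obtain ⟨s, hs⟩ := X0_cov hF (half_pos hM)
  obtain ⟨m, hm0, hm, hb⟩ := cover_bound hF h hM s
  have : ‖F‖ ≤ max m (‖F‖ / 2) := by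
    rw [BoundedContinuousFunction.norm_le (hm0.trans (le_max_left _ _))]
    intro t
    rw [Real.norm_eq_abs]
    by_cases h1 : ‖F‖ / 2 ≤ |F t|
    · obtain ⟨u, hu, hle⟩ := hs t h1
      exact (hb u hu t hle).trans (le_max_left _ _)
    · exact (not_le.1 h1).le.trans (le_max_right _ _)
  exact absurd this (not_le.2 (max_lt hm (half_lt_self hM)))

theorem col_vanish (hF : F ∈ X0) (A : K) {ε : ℝ} (hε : 0 < ε) :
    ∃ N : ℕ, ∀ n, ε ≤ |F (A, n)| → n ≤ N := by
  classical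
  obtain ⟨s, hs⟩ := X0_cov hF hε
  have hu : ∀ u : K × ℕ, ∃ N : ℕ, ∀ n, leT (A, n) u → n ≤ N := by
    intro u
    by_cases hex : ∃ q ∈ u.1, A = u.1.cut q
    · obtain ⟨q, hq, hA⟩ := hex
      refine ⟨max u.2 (enc q), fun n hn => ?_⟩
      rcases hn with ⟨_, h2⟩ | ⟨r, hr, h1, h2⟩
      · exact h2.trans (le_max_left _ _)
      · have : r = q := K.cut_inj hr hq (by rw [← hA]; exact h1.symm)
        rw [← this]
        exact h2.trans (le_max_right _ _)
    · refine ⟨u.2, fun n hn => ?_⟩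
      rcases hn with ⟨_, h2⟩ | ⟨r, hr, h1, h2⟩
      · exact h2
      · exact absurd ⟨r, hr, h1⟩ hex
  choose N hN using hu
  refine ⟨s.sup N, fun n hn => ?_⟩
  obtain ⟨u, hus, hle⟩ := hs _ hn
  exact (hN u n hle).trans (Finset.le_sup (f := N) hus)

theorem talagrand (hF : F ∈ X0) (hne : F ≠ 0) : ∃ t, |F t| = ‖F‖ ∧ gam F t ≠ 0 := by
  obtain ⟨⟨A, n₀⟩, ht⟩ := attained hF hne
  have hM : 0 < ‖F‖ := norm_pos_iff.2 hne
  obtain ⟨N, hN⟩ := col_vanish hF A hM
  have hex : ∃ n, |F (A, n)| = ‖F‖ ∧ |F (A, n + 1)| ≠ ‖F‖ := by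
    by_contra hcon
    push Not at hcon
    have hall : ∀ k, |F (A, n₀ + k)| = ‖F‖ := by
      intro k
      induction k with
      | zero => exact ht
      | succ k ih => exact hcon _ ih
    have := hN (n₀ + (N + 1)) (hall (N + 1)).ge
    omega
  obtain ⟨n, h1, h2⟩ := hex
  refine ⟨(A, n), h1, ?_⟩
  unfold gam
  refine mul_ne_zero (by positivity) ?_
  intro h0
  apply h2
  rw [← h1]
  have : F (A, n) = F (A, n + 1) := by simpa [sub_eq_zero] using h0
  rw [this]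

/-- Evaluation functional on `X0`. -/
noncomputable def phiL (l : K × ℕ) : X0 →L[ℝ] ℝ :=
  (BoundedContinuousFunction.evalCLM ℝ l).comp X0.subtypeL

/-- The weighted difference functional on `X0`. -/
noncomputable def gamL (l : K × ℕ) : X0 →L[ℝ] ℝ :=
  (((1 / 2 : ℝ) ^ l.2) • (BoundedContinuousFunction.evalCLM ℝ l -
    BoundedContinuousFunction.evalCLM ℝ ((l.1, l.2 + 1) : K × ℕ)) :
    BoundedContinuousFunction (K × ℕ) ℝ →L[ℝ] ℝ).comp X0.subtypeL

theorem phiL_apply (l : K × ℕ) (F : X0) : phiL l F = F.1 l := rfl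

theorem gamL_apply (l : K × ℕ) (F : X0) : gamL l F = gam F.1 l := rfl

/-- `X0` has an equivalent norm which is smooth away from zero. -/
theorem X0_smooth : ∃ N : X0 → ℝ, IsEquivNorm N ∧ ∀ x, x ≠ 0 → ContDiffAt ℝ ∞ N x := by
  refine exists_smooth_norm (φ := phiL) (γ := gamL) ?_ ?_ ?_ ?_
  · intro l F
    exact abs_le_norm F.1 l
  · intro l F
    exact gam_le' F.1 l
  · intro F ε hε
    exact gam_fin F.2 hε
  · intro F hF
    exact talagrand F.2 (fun h => hF (Subtype.ext h))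

end Pool.Agent.LipSmooth
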