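import Pool.Agent.LipSmooth.Homeo
import Pool.Agent.LipSmooth.Talagrand
import Pool.Agent.LipSmooth.NonSmooth2

/-!
# `Y0` is a function space without a Fréchet smooth norm
-/

namespace Pool.Agent.LipSmooth

open Set Filter Topology BoundedContinuousFunction

theorem ev_not_le {B' B : K} (h : ¬ B' ≤ B) : ∀ᶠ q in B'.ev, ¬ B'.cut q ≤ B := by
  rw [K.eventually_ev]
  rintro -
  by_contra hcon
  push Not at hcon
  apply h
  refine ⟨fun b hb => ?_, fun a ha c hc hca => ?_⟩
  · obtain ⟨r, hr, hbr, hle⟩ := hcon b hb
    exact hle.1 b ⟨hb, hbr⟩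
  · obtain ⟨r, hr, har, hle⟩ := hcon a ha
    exact (hle.2 a ⟨ha, har⟩ c hc hca).1

open Classical in
/-- The raw indicator. -/
noncomputable def indFun (o : Option ℚ) (B C : K) : ℝ :=
  if C ≤ B ∧ ∀ a, o = some a → a ∈ C then 1 else 0

theorem ind_abs_le (o : Option ℚ) (B C : K) : |indFun o B C| ≤ 1 := by
  unfold indFun; split_ifs <;> simp

/-- The indicator as a bounded function. -/
noncomputable def ind (o : Option ℚ) (B : K) : BoundedContinuousFunction K ℝ :=
  ofNormedAddCommGroupDiscrete (indFun o B) 1 fun C => ind_abs_le o B C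

theorem ind_apply (o : Option ℚ) (B C : K) : ind o B C = indFun o B C := rfl

theorem ind_mem (o : Option ℚ) (B : K) : ind o B ∈ Y0 := by
  refine mem_Y0 ?_ ?_
  · intro ε hε
    refine ⟨{B}, fun C hC => ⟨B, Finset.mem_singleton_self B, ?_⟩⟩
    by_contra hle
    rw [ind_apply, indFun, if_neg (fun h => hle h.1), abs_zero] at hC
    linarith
  · intro B' ε hε
    have key : ∀ᶠ q in B'.ev, indFun o B (B'.cut q) = indFun o B B' := by
      by_cases hle : B' ≤ B
      · rcases o with _ | a
        · refine Eventually.of_forall fun q => ?_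
          unfold indFun
          rw [if_pos ⟨(K.cut_le B' q).trans hle, fun a ha => by simp at ha⟩,
            if_pos ⟨hle, fun a ha => by simp at ha⟩]
        · by_cases ha : a ∈ B'
          · rw [K.eventually_ev]
            rintro -
            refine ⟨a, ha, fun r hr har => ?_⟩
            unfold indFun
            rw [if_pos ⟨(K.cut_le B' r).trans hle, fun x hx => by
                rw [← Option.some_injective _ hx]; exact ⟨ha, har⟩⟩,
              if_pos ⟨hle, fun x hx => by rw [← Option.some_injective _ hx]; exact ha⟩]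
          · refine Eventually.of_forall fun q => ?_
            unfold indFun
            rw [if_neg fun h => ha (h.2 a rfl).1, if_neg fun h => ha (h.2 a rfl)]
      · filter_upwards [ev_not_le hle] with q hq
        unfold indFun
        rw [if_neg fun h => hq h.1, if_neg fun h => hle h.1]
    filter_upwards [key] with q hq
    rw [ind_apply, ind_apply, hq, sub_self, abs_zero]
    exact hε

/-- `Y0` as a function space. -/
noncomputable def Y0rep : FunRep Y0 where
  ev B := (BoundedContinuousFunction.evalCLM ℝ B).comp Y0.subtypeL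
  le B f := by
    show |f.1 B| ≤ ‖f.1‖
    rw [← Real.norm_eq_abs]; exact f.1.norm_coe_le_norm B
  norm_le f c hc h := by
    show ‖f.1‖ ≤ c
    rw [BoundedContinuousFunction.norm_le hc]
    exact h
  dd o B := ⟨ind o B, ind_mem o B⟩
  ev_dd_one o B C h1 h2 := by
    show indFun o B C = 1
    exact if_pos ⟨h1, h2⟩
  ev_dd_zero o B C h := by
    show indFun o B C = 0
    exact if_neg h

/-- No equivalent norm on `E × F` is Fréchet differentiable away from zero. -/
theorem prod_not_smooth {E F : Type*} [NormedAddCommGroup E] [NormedSpace ℝ E] [CompleteSpace E]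
    [NormedAddCommGroup F] [NormedSpace ℝ F] (P : FunRep E) (N : E × F → ℝ) (hN : IsEquivNorm N)
    (hd : ∀ y, y ≠ 0 → DifferentiableAt ℝ N y) : False := by
  have hN' : IsEquivNorm (fun f : E => N (f, 0)) := by
    refine ⟨fun x y => ?_, fun c x => ?_, ?_⟩
    · have := hN.add_le (x, 0) (y, 0)
      simpa using this
    · have := hN.smul c (x, 0)
      simpa using this
    · obtain ⟨a, b, ha, hab, h⟩ := hN.equiv
      refine ⟨a, b, ha, hab, fun x => ?_⟩
      have := h (x, 0)
      simpa [Prod.norm_def] using this
  refine FunRep.not_smooth P hN' fun f hf => ?_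
  have h1 : DifferentiableAt ℝ N (f, (0 : F)) := hd _ fun h => hf (congrArg Prod.fst h)
  have h2 : DifferentiableAt ℝ (fun f : E => (f, (0 : F))) f :=
    (ContinuousLinearMap.inl ℝ E F).differentiableAt
  exact DifferentiableAt.comp f h1 h2

end Pool.Agent.LipSmooth
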