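import Pool.Agent.LipSmooth.Spaces

/-!
# The Lipschitz lifting and the Lipschitz homeomorphism `X0 ≃ Y0 × Z0`
-/

namespace Pool.Agent.LipSmooth

open Set Filter Topology BoundedContinuousFunction
open scoped NNReal

open Classical in
/-- Terms of the supremum. -/
noncomputable def trm (g : K → ℝ) (A : K) (n : ℕ) (q : ℚ) : ℝ :=
  if A.Above q ∧ n ≤ enc q then max (g (A.ins q)) 0 else 0

/-- The supremum of the positive part over the successors of label at least `n`. -/
noncomputable def sp (g : K → ℝ) (A : K) (n : ℕ) : ℝ := ⨆ q : ℚ, trm g A n q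

theorem trm_nonneg (g : K → ℝ) (A : K) (n : ℕ) (q : ℚ) : 0 ≤ trm g A n q := by
  unfold trm; split_ifs
  · exact le_max_right _ _
  · exact le_rfl

theorem trm_le {g : K → ℝ} {A : K} {n : ℕ} {c : ℝ} (hc : 0 ≤ c)
    (h : ∀ q, A.Above q → n ≤ enc q → g (A.ins q) ≤ c) (q : ℚ) : trm g A n q ≤ c := by
  unfold trm; split_ifs with hq
  · exact max_le (h q hq.1 hq.2) hc
  · exact hc

theorem sp_nonneg (g : K → ℝ) (A : K) (n : ℕ) : 0 ≤ sp g A n :=
  Real.iSup_nonneg (trm_nonneg g A n)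

theorem sp_le {g : K → ℝ} {A : K} {n : ℕ} {c : ℝ} (hc : 0 ≤ c)
    (h : ∀ q, A.Above q → n ≤ enc q → g (A.ins q) ≤ c) : sp g A n ≤ c :=
  Real.iSup_le (trm_le hc h) hc

theorem le_sp {g : K → ℝ} {A : K} {n : ℕ} {c : ℝ} (hg : ∀ B, g B ≤ c) {q : ℚ}
    (hq : A.Above q) (hn : n ≤ enc q) : max (g (A.ins q)) 0 ≤ sp g A n := by
  have hb : BddAbove (range (trm g A n)) := by
    refine ⟨max c 0, ?_⟩
    rintro _ ⟨r, rfl⟩
    exact trm_le (le_max_right _ _) (fun q _ _ => (hg _).trans (le_max_left _ _)) r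
  refine le_trans (le_of_eq ?_) (le_ciSup hb q)
  unfold trm; rw [if_pos ⟨hq, hn⟩]

theorem sp_sub_le {g g' : K → ℝ} {A : K} {n : ℕ} {c d : ℝ} (hg' : ∀ B, g' B ≤ c)
    (hd : 0 ≤ d) (h : ∀ B, g B ≤ g' B + d) : sp g A n ≤ sp g' A n + d := by
  refine sp_le (add_nonneg (sp_nonneg _ _ _) hd) fun q hq hn => ?_
  have := le_sp hg' hq hn
  have h1 := le_max_left (g' (A.ins q)) 0
  linarith [h (A.ins q)]

/-- The raw lifting. -/
noncomputable def liftFun (f : K → ℝ) (t : K × ℕ) : ℝ :=
  if t.2 = 0 then f t.1 else sp f t.1 t.2 - sp (fun B => -f B) t.1 t.2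

theorem liftFun_zero (f : K → ℝ) (A : K) : liftFun f (A, 0) = f A := by
  simp [liftFun]

theorem liftFun_bound {f : K → ℝ} {c : ℝ} (hf : ∀ B, |f B| ≤ c) (t : K × ℕ) :
    |liftFun f t| ≤ c := by
  have hc : 0 ≤ c := (abs_nonneg _).trans (hf t.1)
  unfold liftFun
  split_ifs
  · exact hf _
  · have h1 := sp_nonneg f t.1 t.2
    have h2 := sp_nonneg (fun B => -f B) t.1 t.2
    have h3 : sp f t.1 t.2 ≤ c := sp_le hc fun q _ _ => (le_abs_self _).trans (hf _)
    have h4 : sp (fun B => -f B) t.1 t.2 ≤ c := sp_le hc fun q _ _ =>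
      (neg_le_abs _).trans (hf _)
    rw [abs_le]; constructor <;> linarith

theorem liftFun_lip {f g : K → ℝ} {c d : ℝ} (hf : ∀ B, |f B| ≤ c) (hg : ∀ B, |g B| ≤ c)
    (h : ∀ B, |f B - g B| ≤ d) (t : K × ℕ) : |liftFun f t - liftFun g t| ≤ 2 * d := by
  have hd : 0 ≤ d := (abs_nonneg _).trans (h t.1)
  have a1 : ∀ B, f B ≤ g B + d := fun B => by have := (abs_le.1 (h B)).2; linarith
  have a2 : ∀ B, g B ≤ f B + d := fun B => by have := (abs_le.1 (h B)).1; linarith
  have hfc : ∀ B, f B ≤ c := fun B => (le_abs_self _).trans (hf B)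
  have hgc : ∀ B, g B ≤ c := fun B => (le_abs_self _).trans (hg B)
  have hfc' : ∀ B, -f B ≤ c := fun B => (neg_le_abs _).trans (hf B)
  have hgc' : ∀ B, -g B ≤ c := fun B => (neg_le_abs _).trans (hg B)
  unfold liftFun
  split_ifs
  · exact (h _).trans (by linarith)
  · have b1 := sp_sub_le (A := t.1) (n := t.2) hgc hd a1
    have b2 := sp_sub_le (A := t.1) (n := t.2) hfc hd a2
    have b3 := sp_sub_le (g := fun B => -f B) (g' := fun B => -g B) (A := t.1) (n := t.2)
      hgc' hd (fun B => by have := a2 B; linarith)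
    have b4 := sp_sub_le (g := fun B => -g B) (g' := fun B => -f B) (A := t.1) (n := t.2)
      hfc' hd (fun B => by have := a1 B; linarith)
    rw [abs_le]; constructor <;> linarith

/-- If all successors but one are small, the lifting is close to the value at that one. -/
theorem liftFun_close {f : K → ℝ} {c ε : ℝ} (hf : ∀ B, |f B| ≤ c) (hε : 0 ≤ ε) {A : K}
    {n : ℕ} (hn : n ≠ 0) {q₀ : ℚ} (hq₀ : A.Above q₀) (hnq : n ≤ enc q₀)
    (h : ∀ q, A.Above q → q ≠ q₀ → |f (A.ins q)| ≤ ε) :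
    |liftFun f (A, n) - f (A.ins q₀)| ≤ ε := by
  have hfc : ∀ B, f B ≤ c := fun B => (le_abs_self _).trans (hf B)
  have hfc' : ∀ B, -f B ≤ c := fun B => (neg_le_abs _).trans (hf B)
  unfold liftFun
  rw [if_neg hn]
  simp only
  have l1 := le_sp hfc hq₀ hnq
  have l2 := le_sp (g := fun B => -f B) hfc' hq₀ hnq
  have u1 : sp f A n ≤ max (f (A.ins q₀)) 0 + ε := by
    refine sp_le (add_nonneg (le_max_right _ _) hε) fun q hq _ => ?_
    by_cases hqq : q = q₀
    · rw [hqq]; have := le_max_left (f (A.ins q₀)) 0; linarith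
    · have := (le_abs_self _).trans (h q hq hqq)
      have := le_max_right (f (A.ins q₀)) 0; linarith
  have u2 : sp (fun B => -f B) A n ≤ max (-f (A.ins q₀)) 0 + ε := by
    refine sp_le (add_nonneg (le_max_right _ _) hε) fun q hq _ => ?_
    by_cases hqq : q = q₀
    · rw [hqq]; have := le_max_left (-f (A.ins q₀)) 0; linarith
    · have := (neg_le_abs _).trans (h q hq hqq)
      have := le_max_right (-f (A.ins q₀)) 0; linarith
  have e : f (A.ins q₀) = max (f (A.ins q₀)) 0 - max (-f (A.ins q₀)) 0 := by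
    rcases le_total (f (A.ins q₀)) 0 with h0 | h0
    · rw [max_eq_right h0, max_eq_left (neg_nonneg.2 h0)]; ring
    · rw [max_eq_left h0, max_eq_right (neg_nonpos.2 h0)]; ring
  rw [abs_le]; constructor <;> linarith

/-- The lifting as a bounded function. -/
noncomputable def lift (f : BoundedContinuousFunction K ℝ) :
    BoundedContinuousFunction (K × ℕ) ℝ :=
  ofNormedAddCommGroupDiscrete (liftFun f) ‖f‖ fun t => by
    rw [Real.norm_eq_abs]
    exact liftFun_bound (fun B => by rw [← Real.norm_eq_abs]; exact f.norm_coe_le_norm B) t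

theorem lift_apply (f : BoundedContinuousFunction K ℝ) (t : K × ℕ) :
    lift f t = liftFun f t := rfl

theorem lift_zero (f : BoundedContinuousFunction K ℝ) (A : K) : lift f (A, 0) = f A :=
  liftFun_zero f A

theorem lift_lip (f g : BoundedContinuousFunction K ℝ) : ‖lift f - lift g‖ ≤ 2 * ‖f - g‖ := by
  rw [BoundedContinuousFunction.norm_le (by positivity)]
  intro t
  have hc : ∀ (h : BoundedContinuousFunction K ℝ), ‖h‖ ≤ ‖f‖ + ‖g‖ → ∀ B, |h B| ≤ ‖f‖ + ‖g‖ :=
    fun h hh B => by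
      rw [← Real.norm_eq_abs]; exact (h.norm_coe_le_norm B).trans hh
  exact liftFun_lip (hc f (by linarith [norm_nonneg g])) (hc g (by linarith [norm_nonneg f]))
    (fun B => by
      have := (f - g).norm_coe_le_norm B
      rwa [Real.norm_eq_abs] at this) t

theorem lift_mem {f : BoundedContinuousFunction K ℝ} (hf : f ∈ Y0) : lift f ∈ X0 := by
  have hfc : ∀ B, |f B| ≤ ‖f‖ := fun B => by
    rw [← Real.norm_eq_abs]; exact f.norm_coe_le_norm B
  refine mem_X0 ?_ ?_
  · intro ε hε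
    classical
    obtain ⟨s, hs⟩ := Y0_cov hf (half_pos hε)
    refine ⟨s.image fun B => (B, 0), ?_⟩
    rintro ⟨A, n⟩ hA
    by_cases hn : n = 0
    · subst hn
      rw [lift_zero] at hA
      obtain ⟨B, hB, hAB⟩ := hs A (by linarith)
      refine ⟨(B, 0), Finset.mem_image_of_mem _ hB, ?_⟩
      rcases K.le_iff.1 hAB with h | ⟨q, hq, h⟩
      · exact Or.inl ⟨h, le_rfl⟩
      · exact Or.inr ⟨q, hq, h, Nat.zero_le _⟩
    · by_cases hex : ∃ q, A.Above q ∧ n ≤ enc q ∧ ε / 2 ≤ |f (A.ins q)|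
      · obtain ⟨q, hq, hnq, hfq⟩ := hex
        obtain ⟨B, hB, hAB⟩ := hs _ hfq
        obtain ⟨hqB, hcut⟩ := K.of_ins_le hq hAB
        exact ⟨(B, 0), Finset.mem_image_of_mem _ hB, Or.inr ⟨q, hqB, hcut, hnq⟩⟩
      · exfalso
        push Not at hex
        have h3 : sp f A n ≤ ε / 2 := sp_le (by positivity) fun q h1 h2 =>
          (le_abs_self _).trans (hex q h1 h2).le
        have h4 : sp (fun B => -f B) A n ≤ ε / 2 := sp_le (by positivity) fun q h1 h2 =>
          (neg_le_abs _).trans (hex q h1 h2).le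
        have h1 := sp_nonneg f A n
        have h2 := sp_nonneg (fun B => -f B) A n
        rw [lift_apply, liftFun, if_neg hn] at hA
        have : |sp f A n - sp (fun B => -f B) A n| ≤ ε / 2 := by
          rw [abs_le]; constructor <;> linarith
        linarith
  · intro B ε hε
    obtain ⟨s, hs⟩ := Y0_cov hf (half_pos hε)
    have e1 : ∀ᶠ q in B.ev, |f (B.cut q) - f B| < ε / 2 := Y0_lim hf B (half_pos hε)
    have e2 : ∀ᶠ q' in B.ev, ∀ C ∈ s, ∀ q, (B.cut q').Above q → (B.cut q').ins q ≤ C → q = q' :=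
      (Finset.eventually_all s).2 fun C _ => K.ev_branch B C
    -- the value at the next node
    have e3 : ∀ᶠ q in B.ev, |f ((B.cut q).ins q) - f B| < ε / 2 := by
      rw [K.eventually_ev] at e1 ⊢
      intro hne
      obtain ⟨q₀, hq₀, h⟩ := e1 hne
      refine ⟨q₀, hq₀, fun r hr hlt => ?_⟩
      rcases K.ins_cases hr with h' | ⟨r', hr', hlt', h'⟩
      · rw [h', sub_self, abs_zero]; positivity
      · rw [h']; exact h r' hr' (hlt.trans hlt')
    filter_upwards [e1, e2, e3] with q h1 h2 h3 n hn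
    rw [lift_zero]
    by_cases hn0 : n = 0
    · subst hn0
      rw [lift_zero]; linarith
    · have hclose := liftFun_close hfc (half_pos hε).le hn0 (K.above_cut B q) hn
        (fun q' hq' hne => by
          by_contra hlt
          obtain ⟨C, hC, hle⟩ := hs _ (not_le.1 hlt).le
          exact hne (h2 C hC q' hq' hle))
      rw [lift_apply]
      calc |liftFun f (B.cut q, n) - f B| = |(liftFun f (B.cut q, n) - f ((B.cut q).ins q)) +
            (f ((B.cut q).ins q) - f B)| := by ring_nf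
        _ ≤ _ := abs_add_le _ _
        _ < ε := by linarith

/-- Restriction to `K × {0}`. -/
noncomputable def restr (F : BoundedContinuousFunction (K × ℕ) ℝ) :
    BoundedContinuousFunction K ℝ :=
  ofNormedAddCommGroupDiscrete (fun A => F (A, 0)) ‖F‖ fun A => F.norm_coe_le_norm _

theorem restr_apply (F : BoundedContinuousFunction (K × ℕ) ℝ) (A : K) :
    restr F A = F (A, 0) := rfl

theorem restr_lip (F G : BoundedContinuousFunction (K × ℕ) ℝ) :
    ‖restr F - restr G‖ ≤ ‖F - G‖ := by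
  rw [BoundedContinuousFunction.norm_le (norm_nonneg _)]
  intro A
  exact (F - G).norm_coe_le_norm (A, 0)

theorem restr_mem {F : BoundedContinuousFunction (K × ℕ) ℝ} (hF : F ∈ X0) : restr F ∈ Y0 := by
  classical
  refine mem_Y0 ?_ ?_
  · intro ε hε
    obtain ⟨s, hs⟩ := X0_cov hF hε
    refine ⟨s.image Prod.fst, fun A hA => ?_⟩
    obtain ⟨u, hu, hle⟩ := hs (A, 0) hA
    exact ⟨u.1, Finset.mem_image_of_mem _ hu, hle.le⟩
  · intro B ε hε
    filter_upwards [X0_lim hF B hε] with q hq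
    exact hq 0 (Nat.zero_le _)

theorem restr_lift (f : BoundedContinuousFunction K ℝ) : restr (lift f) = f := by
  ext A
  rw [restr_apply, lift_zero]

theorem sub_lift_mem {F : BoundedContinuousFunction (K × ℕ) ℝ} (hF : F ∈ X0) :
    F - lift (restr F) ∈ Z0 := by
  refine ⟨X0.sub_mem hF (lift_mem (restr_mem hF)), fun A => ?_⟩
  show F (A, 0) - lift (restr F) (A, 0) = 0
  rw [lift_zero, restr_apply, sub_self]

theorem restr_lift_add {f : BoundedContinuousFunction K ℝ}
    {z : BoundedContinuousFunction (K × ℕ) ℝ} (hz : z ∈ Z0) : restr (lift f + z) = f := by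
  ext A
  show lift f (A, 0) + z (A, 0) = f A
  rw [lift_zero, hz.2 A, add_zero]

/-- The Lipschitz homeomorphism. -/
noncomputable def homeo : X0 ≃ Y0 × Z0 where
  toFun F := (⟨restr F.1, restr_mem F.2⟩, ⟨F.1 - lift (restr F.1), sub_lift_mem F.2⟩)
  invFun p := ⟨lift p.1.1 + p.2.1, X0.add_mem (lift_mem p.1.2) p.2.2.1⟩
  left_inv F := by
    apply Subtype.ext
    show lift (restr F.1) + (F.1 - lift (restr F.1)) = F.1
    abel
  right_inv p := by
    have h := restr_lift_add (f := p.1.1) p.2.2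
    refine Prod.ext (Subtype.ext h) (Subtype.ext ?_)
    show lift p.1.1 + p.2.1 - lift (restr (lift p.1.1 + p.2.1)) = p.2.1
    rw [h]; abel

theorem homeo_lip : LipschitzWith 3 homeo := by
  refine LipschitzWith.of_dist_le_mul fun F G => ?_
  rw [dist_eq_norm_sub (homeo F) (homeo G), dist_eq_norm_sub F G]
  have hR := restr_lip F.1 G.1
  have hL := lift_lip (restr F.1) (restr G.1)
  have hFG : ‖F - G‖ = ‖F.1 - G.1‖ := rfl
  refine max_le ?_ ?_
  · show ‖restr F.1 - restr G.1‖ ≤ (3 : ℝ≥0) * ‖F - G‖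
    rw [hFG]; push_cast
    linarith [norm_nonneg (F.1 - G.1)]
  · show ‖(F.1 - lift (restr F.1)) - (G.1 - lift (restr G.1))‖ ≤ (3 : ℝ≥0) * ‖F - G‖
    rw [hFG]; push_cast
    have e : (F.1 - lift (restr F.1)) - (G.1 - lift (restr G.1)) =
        (F.1 - G.1) - (lift (restr F.1) - lift (restr G.1)) := by abel
    rw [e]
    refine (norm_sub_le _ _).trans ?_
    linarith

theorem homeo_symm_lip : LipschitzWith 3 homeo.symm := by
  refine LipschitzWith.of_dist_le_mul fun p r => ?_
  rw [dist_eq_norm_sub (homeo.symm p) (homeo.symm r), dist_eq_norm_sub p r]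
  have hL := lift_lip p.1.1 r.1.1
  show ‖(lift p.1.1 + p.2.1) - (lift r.1.1 + r.2.1)‖ ≤ (3 : ℝ≥0) * ‖p - r‖
  have e : (lift p.1.1 + p.2.1) - (lift r.1.1 + r.2.1) =
      (lift p.1.1 - lift r.1.1) + (p.2.1 - r.2.1) := by abel
  have h1 : ‖p.1.1 - r.1.1‖ ≤ ‖p - r‖ := norm_fst_le (p - r)
  have h2 : ‖p.2.1 - r.2.1‖ ≤ ‖p - r‖ := norm_snd_le (p - r)
  rw [e]; push_cast
  refine (norm_add_le _ _).trans ?_
  linarith

end Pool.Agent.LipSmooth
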