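import Pool.Agent.LipSmooth.Basic

/-!
# A Kurepa-type maximality argument on the tree of well-ordered sets of rationals
-/

namespace Pool.Agent.LipSmooth

open Set Filter Topology

theorem K.mem_of_chain {c : Set K} (hc : IsChain (· ≤ ·) c) {A A' : K} (hA : A ∈ c)
    (hA' : A' ∈ c) {a b : ℚ} (ha : a ∈ A) (hb : b ∈ A') (hba : b < a) : b ∈ A := by
  rcases hc.total hA hA' with h | h
  · exact h.2 a ha b hb hba
  · exact h.1 b hb

/-- The union of a chain. -/
def K.chainUnion (c : Set K) (hc : IsChain (· ≤ ·) c) : K where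
  carrier := {q | ∃ A ∈ c, q ∈ A}
  wf := by
    rw [Set.isWF_iff_no_descending_seq]
    intro f hf hmem
    obtain ⟨A, hA, h0⟩ := hmem 0
    have hall : ∀ n, f n ∈ A := by
      intro n
      rcases Nat.eq_zero_or_pos n with rfl | hn
      · exact h0
      · obtain ⟨A', hA', hn'⟩ := hmem n
        exact K.mem_of_chain hc hA hA' h0 hn' (hf hn)
    exact (Set.isWF_iff_no_descending_seq.1 A.wf) f hf hall

theorem K.le_chainUnion {c : Set K} (hc : IsChain (· ≤ ·) c) {A : K} (hA : A ∈ c) :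
    A ≤ K.chainUnion c hc :=
  ⟨fun _ ha => ⟨A, hA, ha⟩, fun _ ha _ ⟨_, hA', hb⟩ hba => K.mem_of_chain hc hA hA' ha hb hba⟩

theorem K.cut_eq_of_le {A B : K} (h : A ≤ B) {a : ℚ} (ha : a ∈ A) : B.cut a = A.cut a :=
  K.ext' fun x => ⟨fun hx => ⟨h.2 a ha x hx.1 hx.2, hx.2⟩, fun hx => ⟨h.1 x hx.1, hx.2⟩⟩

theorem kurepa (ρ : K → ℝ) (hmono : Monotone ρ) (h0 : ∀ A, 0 ≤ ρ A) :
    ∃ A : K, (∃ q, q ∈ A) ∧ (∀ q ∈ A, ∃ r ∈ A, q < r) ∧
      (∀ δ > 0, ∃ a ∈ A, ρ A < ρ (A.cut a) + δ) ∧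
      (∀ δ > 0, {q : ℚ | A.Above q ∧ ρ (A.ins q) < ρ A + δ}.Infinite) := by
  obtain ⟨A, hA⟩ := zorn_le₀ {A : K | ∀ a ∈ A, (a : ℝ) < ρ ((A.cut a).ins a)} (by
    intro c hcS hc
    refine ⟨K.chainUnion c hc, ?_, fun z hz => K.le_chainUnion hc hz⟩
    rintro a ⟨A, hAc, haA⟩
    rw [K.cut_eq_of_le (K.le_chainUnion hc hAc) haA]
    exact hcS hAc a haA)
  have hAP : ∀ a ∈ A, (a : ℝ) < ρ ((A.cut a).ins a) := hA.1
  have hmax : ∀ q : ℚ, A.Above q → ρ (A.ins q) ≤ q := by
    intro q hq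
    by_contra hlt
    rw [not_le] at hlt
    have hmem : A.ins q ∈ {A : K | ∀ a ∈ A, (a : ℝ) < ρ ((A.cut a).ins a)} := by
      rintro a (rfl | ha)
      · rw [K.ins_cut hq]; exact hlt
      · rw [K.cut_eq_of_le (K.lt_ins hq).le ha]; exact hAP a ha
    exact absurd (hA.2 hmem (K.lt_ins hq).le) (not_le_of_gt (K.lt_ins hq))
  have hlt : ∀ a ∈ A, (a : ℝ) < ρ A := fun a ha =>
    (hAP a ha).trans_le (hmono (K.ins_le_of ha))
  have hne : ∃ q, q ∈ A := by
    by_contra hemp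
    push Not at hemp
    have h1 := hmax (-1) (fun a ha => absurd ha (hemp a))
    have h2 := h0 (A.ins (-1))
    push_cast at h1
    linarith
  have hnomax : ∀ q ∈ A, ∃ r ∈ A, q < r := by
    intro a ha
    by_contra hcon
    push Not at hcon
    obtain ⟨q, hq1, hq2⟩ := exists_rat_btwn (hlt a ha)
    have hq : A.Above q := fun x hx => (hcon x hx).trans_lt (by exact_mod_cast hq1)
    have h1 := hmax q hq
    have h2 := hmono (K.lt_ins hq).le
    linarith
  refine ⟨A, hne, hnomax, ?_, ?_⟩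
  · intro δ hδ
    have hex : ∃ a ∈ A, ρ A - δ < (a : ℝ) := by
      by_contra hcon
      push Not at hcon
      obtain ⟨q, hq1, hq2⟩ := exists_rat_btwn (show ρ A - δ < ρ A by linarith)
      have hq : A.Above q := fun x hx => by
        have := (hcon x hx).trans_lt hq1
        exact_mod_cast this
      have h1 := hmax q hq
      have h2 := hmono (K.lt_ins hq).le
      linarith
    obtain ⟨a, ha, hra⟩ := hex
    obtain ⟨r, hr, har⟩ := hnomax a ha
    refine ⟨r, hr, ?_⟩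
    have h1 : (A.cut a).ins a ≤ A.cut r := by
      have := K.ins_le_of (B := A.cut r) (q := a) ⟨ha, har⟩
      rwa [K.cut_cut har.le] at this
    have h2 := hmono h1
    have h3 := hAP a ha
    linarith
  · intro δ hδ
    obtain ⟨u, hu1, hu2⟩ := exists_rat_btwn (show ρ A < ρ A + δ by linarith)
    obtain ⟨v, hv1, hv2⟩ := exists_rat_btwn hu2
    have huv : u < v := by exact_mod_cast hv1
    refine (Set.Ioo_infinite huv).mono ?_
    rintro q ⟨hq1, hq2⟩
    have hq1' : (u : ℝ) < q := by exact_mod_cast hq1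
    have hq2' : (q : ℝ) < v := by exact_mod_cast hq2
    have hq : A.Above q := fun x hx => by
      have := ((hlt x hx).trans hu1).trans hq1'
      exact_mod_cast this
    exact ⟨hq, (hmax q hq).trans_lt (by linarith)⟩

end Pool.Agent.LipSmooth
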