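import Pool.Agent.LipSmooth.Theta
import Pool.Agent.LipSmooth.Defs

/-!
# Smooth norms from smooth convex functions on the unit ball
-/

namespace Pool.Agent.LipSmooth

open Set Filter Topology Metric
open scoped ContDiff

section gauge

variable {E : Type*} [NormedAddCommGroup E] [NormedSpace ℝ E] [CompleteSpace E]

/-- The smooth gauge lemma. -/
theorem exists_smooth_of_convex (Ψ : E → ℝ)
    (h1 : ∀ x, ‖x‖ < 1 → ContDiffAt ℝ ∞ Ψ x)
    (h2 : ConvexOn ℝ (ball (0 : E) 1) Ψ)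
    (h3 : ∀ x, Ψ (-x) = Ψ x) (h4 : Ψ 0 = 0)
    (h5 : ∀ x, ‖x‖ = 1 → ∃ t : ℝ, 0 < t ∧ t < 1 ∧ 1 < Ψ (t • x)) :
    ∃ N : E → ℝ, IsEquivNorm N ∧ ∀ x, x ≠ 0 → ContDiffAt ℝ ∞ N x := by
  classical
  set B : Set E := {x ∈ ball (0 : E) 1 | Ψ x < 1} with hB
  have hcont : ContinuousOn Ψ (ball (0 : E) 1) := fun x hx =>
    (h1 x (by simpa using hx)).continuousAt.continuousWithinAt
  have hBopen : IsOpen B := hcont.isOpen_inter_preimage isOpen_ball isOpen_Iio
  have hBconv : Convex ℝ B := h2.convex_lt 1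
  have h0B : (0 : E) ∈ B := ⟨by simp, by rw [h4]; norm_num⟩
  have hBnhds : B ∈ 𝓝 (0 : E) := hBopen.mem_nhds h0B
  have habs : Absorbent ℝ B := absorbent_nhds_zero hBnhds
  have hsymm : ∀ x ∈ B, -x ∈ B := fun x hx => ⟨by simpa using hx.1, by
    show Ψ (-x) < 1
    rw [h3]; exact hx.2⟩
  have hball : ∀ x, gauge B x < 1 ↔ x ∈ B := by
    intro x
    have := setOfPred_gauge_lt_one_eq_self_of_isOpen hBconv h0B hBopen
    exact ⟨fun hx => by rw [← this]; exact hx, fun hx => by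
      have hx' : x ∈ {x | gauge B x < 1} := by rw [this]; exact hx
      exact hx'⟩
  have hsub : B ⊆ closedBall (0 : E) 1 := fun x hx => ball_subset_closedBall hx.1
  have hlow : ∀ x, ‖x‖ ≤ gauge B x := fun x => by
    have := le_gauge_of_subset_closedBall (x := x) habs zero_le_one hsub
    simpa using this
  obtain ⟨r, hr, hrB⟩ := Metric.mem_nhds_iff.1 hBnhds
  have hup : ∀ x, gauge B x ≤ r⁻¹ * ‖x‖ := fun x => by
    have := mul_gauge_le_norm (x := x) hrB
    rw [inv_mul_eq_div, le_div_iff₀ hr]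
    linarith
  have hNsmul : ∀ (c : ℝ) (x : E), gauge B (c • x) = |c| * gauge B x := by
    intro c x
    rcases le_total 0 c with hc | hc
    · rw [gauge_smul_of_nonneg hc, abs_of_nonneg hc, smul_eq_mul]
    · have : c • x = (-c) • (-x) := by simp
      rw [this, gauge_smul_of_nonneg (neg_nonneg.2 hc), gauge_neg hsymm, abs_of_nonpos hc,
        smul_eq_mul]
  refine ⟨gauge B, ⟨gauge_add_le hBconv habs, hNsmul, 1, max 1 r⁻¹, one_pos, le_max_left _ _,
    fun x => ⟨by rw [one_mul]; exact hlow x, (hup x).trans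
      (mul_le_mul_of_nonneg_right (le_max_right _ _) (norm_nonneg x))⟩⟩, ?_⟩
  intro x₀ hx₀
  have hNcont : Continuous (gauge B) := continuous_gauge hBconv hBnhds
  have hNpos : ∀ x, x ≠ 0 → 0 < gauge B x := fun x hx =>
    (norm_pos_iff.2 hx).trans_le (hlow x)
  -- value of `Ψ` at the normalised vector
  have hval : ∀ x, x ≠ 0 → ‖(gauge B x)⁻¹ • x‖ < 1 ∧ Ψ ((gauge B x)⁻¹ • x) = 1 := by
    intro x hx
    have hN := hNpos x hx
    set u := (gauge B x)⁻¹ • x with hu
    have hgu : gauge B u = 1 := by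
      rw [hu, hNsmul, abs_of_pos (inv_pos.2 hN), inv_mul_cancel₀ hN.ne']
    have hsu : ∀ s : ℝ, 0 ≤ s → s < 1 → s • u ∈ B := by
      intro s hs hs1
      rw [← hball, hNsmul, hgu, mul_one, abs_of_nonneg hs]; exact hs1
    have hun : ‖u‖ < 1 := by
      have hle : ‖u‖ ≤ 1 := by rw [← hgu]; exact hlow u
      refine lt_of_le_of_ne hle fun h => ?_
      obtain ⟨t, ht0, ht1, ht⟩ := h5 u h
      exact absurd (hsu t ht0.le ht1).2 (not_lt.2 ht.le)
    refine ⟨hun, le_antisymm ?_ ?_⟩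
    · have hcu : ContinuousAt Ψ u := (h1 u hun).continuousAt
      have hlim : Tendsto (fun s : ℝ => Ψ (s • u)) (𝓝[<] 1) (𝓝 (Ψ u)) := by
        have : Tendsto (fun s : ℝ => s • u) (𝓝[<] 1) (𝓝 u) := by
          have h' : Tendsto (fun s : ℝ => s • u) (𝓝 1) (𝓝 ((1 : ℝ) • u)) :=
            (continuous_id.smul continuous_const).tendsto 1
          rw [one_smul] at h'
          exact h'.mono_left nhdsWithin_le_nhds
        exact hcu.tendsto.comp this
      refine le_of_tendsto hlim ?_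
      have hmem : Ioo (0 : ℝ) 1 ∈ 𝓝[<] (1 : ℝ) := Ioo_mem_nhdsLT one_pos
      filter_upwards [hmem] with s hs
      exact (hsu s hs.1.le hs.2).2.le
    · by_contra hlt
      have : u ∈ B := ⟨by simpa using hun, not_le.1 hlt⟩
      rw [← hball, hgu] at this
      exact lt_irrefl _ this
  -- implicit function theorem
  set r₀ := gauge B x₀ with hr₀
  have hr₀pos : 0 < r₀ := hNpos x₀ hx₀
  set f : E × ℝ → ℝ := fun z => Ψ (z.2⁻¹ • z.1) with hf
  have hfu : f (x₀, r₀) = 1 := (hval x₀ hx₀).2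
  have cdf : ContDiffAt ℝ ∞ f (x₀, r₀) := by
    have hin : ContDiffAt ℝ ∞ (fun z : E × ℝ => z.2⁻¹ • z.1) (x₀, r₀) :=
      (contDiffAt_snd.inv hr₀pos.ne').smul contDiffAt_fst
    exact ContDiffAt.comp (x₀, r₀) (h1 _ (hval x₀ hx₀).1) hin
  have pn : (∞ : WithTop ℕ∞) ≠ 0 := by simp
  have hdiff : DifferentiableAt ℝ f (x₀, r₀) := cdf.differentiableAt pn
  -- radial derivative
  have hD : HasDerivAt (fun r : ℝ => f (x₀, r)) (fderiv ℝ f (x₀, r₀) (0, 1)) r₀ := by
    have hin : HasDerivAt (fun r : ℝ => (x₀, r)) ((0 : E), (1 : ℝ)) r₀ :=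
      (hasDerivAt_const r₀ x₀).prodMk (hasDerivAt_id r₀)
    exact hdiff.hasFDerivAt.comp_hasDerivAt r₀ hin
  have hDne : fderiv ℝ f (x₀, r₀) (0, 1) ≠ 0 := by
    set D := fderiv ℝ f (x₀, r₀) (0, 1) with hDdef
    have hslope : Tendsto (fun r => slope (fun r : ℝ => f (x₀, r)) r₀ r) (𝓝[>] r₀) (𝓝 D) :=
      hD.tendsto_slope.mono_left (nhdsWithin_mono _ (fun r hr => ne_of_gt hr))
    have hle : D ≤ -(1 / r₀) := by
      have hlim2 : Tendsto (fun r : ℝ => -(1 / r)) (𝓝[>] r₀) (𝓝 (-(1 / r₀))) := by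
        have : ContinuousAt (fun r : ℝ => -(1 / r)) r₀ :=
          (continuousAt_const.div continuousAt_id hr₀pos.ne').neg
        exact this.tendsto.mono_left nhdsWithin_le_nhds
      refine le_of_tendsto_of_tendsto hslope hlim2 ?_
      filter_upwards [self_mem_nhdsWithin] with r hr
      have hr' : r₀ < r := hr
      have hrpos : 0 < r := hr₀pos.trans hr'
      have hu := hval x₀ hx₀
      set u := (gauge B x₀)⁻¹ • x₀ with hudef
      have hfr : f (x₀, r) ≤ r₀ / r := by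
        have e : r⁻¹ • x₀ = (r₀ / r) • u + (1 - r₀ / r) • (0 : E) := by
          rw [hudef, smul_zero, add_zero, smul_smul, ← hr₀]
          congr 1
          field_simp
        have ha : 0 ≤ r₀ / r := by positivity
        have hb : 0 ≤ 1 - r₀ / r := by
          rw [sub_nonneg, div_le_one hrpos]; exact hr'.le
        have := h2.2 (show u ∈ ball (0 : E) 1 by simpa using hu.1)
          (show (0 : E) ∈ ball (0 : E) 1 by simp) ha hb (by ring)
        rw [← e, hu.2, h4] at this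
        simpa [hf] using this
      rw [slope_def_field, hfu, div_le_iff₀ (sub_pos.2 hr')]
      have e2 : -(1 / r) * (r - r₀) = r₀ / r - 1 := by field_simp; ring
      rw [e2]
      linarith
    have : -(1 / r₀) < 0 := by
      have : 0 < 1 / r₀ := by positivity
      linarith
    exact (hle.trans_lt this).ne
  have if₂ : (fderiv ℝ f (x₀, r₀) ∘L .inr ℝ E ℝ).IsInvertible := by
    refine ⟨ContinuousLinearEquiv.unitsEquivAut ℝ (Units.mk0 _ hDne), ?_⟩
    ext
    simp [ContinuousLinearEquiv.unitsEquivAut_apply]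
  have hcd := cdf.contDiffAt_implicitFunction pn if₂
  refine hcd.congr_of_eventuallyEq ?_
  have hev := cdf.eventually_apply_eq_iff_implicitFunction pn if₂
  have htend : Tendsto (fun x : E => (x, gauge B x)) (𝓝 x₀) (𝓝 (x₀, r₀)) :=
    (continuous_id.prodMk hNcont).tendsto x₀
  have hne : ∀ᶠ x in 𝓝 x₀, x ≠ 0 := isOpen_ne.mem_nhds hx₀
  filter_upwards [htend.eventually hev, hne] with x hx hxne
  exact (hx.1 (by rw [hfu]; exact (hval x hxne).2)).symm

end gauge

end Pool.Agent.LipSmooth
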