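import Pool.Agent.LipSmooth.Kurepa
import Pool.Agent.LipSmooth.Norm

/-!
# Function spaces on the tree of well-ordered sets of rationals have no Fréchet smooth norm
-/

namespace Pool.Agent.LipSmooth

open Set Filter Topology

/-! ### A greedy maximality principle -/

theorem greedy {V : Type*} [MetricSpace V] [CompleteSpace V] (h N : V → ℝ) (hc : Continuous h)
    (hN : Continuous N) (c : ℝ) (f₀ : V) (H : ℝ)
    (hH : ∀ g, dist f₀ g ≤ h g - h f₀ → N g ≤ N f₀ + c * (h g - h f₀) → h g ≤ H)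
    (step : ∀ f, dist f₀ f ≤ h f - h f₀ → N f ≤ N f₀ + c * (h f - h f₀) →
      ∃ g, dist f g ≤ h g - h f ∧ N g ≤ N f + c * (h g - h f) ∧ h f < h g) : False := by
  classical
  set R : V → V → Prop := fun f g => dist f g ≤ h g - h f ∧ N g ≤ N f + c * (h g - h f) with hR
  have Rrefl : ∀ f, R f f := fun f => ⟨by simp, by simp⟩
  have Rtrans : ∀ f g k, R f g → R g k → R f k := fun f g k h1 h2 =>
    ⟨(dist_triangle f g k).trans (by linarith [h1.1, h2.1]), by
      have := h1.2; have := h2.2; nlinarith⟩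
  -- good steps
  have hstep : ∀ f, R f₀ f → ∃ g, R f g ∧ ∀ k, R f k → (h f + h k) / 2 ≤ h g := by
    intro f hf
    set S : Set ℝ := {x | ∃ g, R f g ∧ h g = x} with hS
    have hSb : BddAbove S := ⟨H, by
      rintro _ ⟨g, hg, rfl⟩
      have := Rtrans _ _ _ hf hg
      exact hH g this.1 this.2⟩
    have hSne : S.Nonempty := ⟨h f, f, Rrefl f, rfl⟩
    obtain ⟨g₁, hg1, hg2, hg3⟩ := step f hf.1 hf.2
    have hlt : (h f + sSup S) / 2 < sSup S := by
      have : h g₁ ≤ sSup S := le_csSup hSb ⟨g₁, ⟨hg1, hg2⟩, rfl⟩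
      linarith
    obtain ⟨_, ⟨g, hg, rfl⟩, hgt⟩ := exists_lt_of_lt_csSup hSne hlt
    refine ⟨g, hg, fun k hk => ?_⟩
    have : h k ≤ sSup S := le_csSup hSb ⟨k, hk, rfl⟩
    linarith
  choose! nx hnx1 hnx2 using hstep
  set s : ℕ → V := fun n => nx^[n] f₀ with hs
  have hs0 : ∀ n, R f₀ (s n) := by
    intro n
    induction n with
    | zero => exact Rrefl _
    | succ n ih =>
      have : s (n + 1) = nx (s n) := by simp [hs, Function.iterate_succ_apply']
      rw [this]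
      exact Rtrans _ _ _ ih (hnx1 _ ih)
  have hsucc : ∀ n, s (n + 1) = nx (s n) := fun n => by
    simp [hs, Function.iterate_succ_apply']
  have hsR : ∀ n m, n ≤ m → R (s n) (s m) := by
    intro n m hnm
    induction m, hnm using Nat.le_induction with
    | base => exact Rrefl _
    | succ m _ ih =>
      rw [hsucc]
      exact Rtrans _ _ _ ih (hnx1 _ (hs0 m))
  have hmono : Monotone fun n => h (s n) := fun n m hnm => by
    have := (hsR n m hnm).1
    have := (dist_nonneg (x := s n) (y := s m))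
    simp only
    linarith
  have hbdd : BddAbove (range fun n => h (s n)) := ⟨H, by
    rintro _ ⟨n, rfl⟩
    exact hH _ (hs0 n).1 (hs0 n).2⟩
  have hlim := tendsto_atTop_ciSup hmono hbdd
  set ℓ := ⨆ n, h (s n) with hℓ
  have hle : ∀ n, h (s n) ≤ ℓ := fun n => le_ciSup hbdd n
  have hcau : CauchySeq s := by
    refine cauchySeq_of_le_tendsto_0' (fun n => ℓ - h (s n)) (fun n m hnm => ?_) ?_
    · have := (hsR n m hnm).1
      linarith [hle m]
    · have := (tendsto_const_nhds (x := ℓ)).sub hlim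
      simpa using this
  obtain ⟨f, hf⟩ := cauchySeq_tendsto_of_complete hcau
  have hhf : h f = ℓ := tendsto_nhds_unique ((hc.tendsto f).comp hf) hlim
  have hRf : ∀ n, R (s n) f := by
    intro n
    have e : ∀ᶠ m in atTop, n ≤ m := eventually_ge_atTop n
    have t1 : Tendsto (fun m => dist (s n) (s m)) atTop (𝓝 (dist (s n) f)) :=
      tendsto_const_nhds.dist hf
    have t2 : Tendsto (fun m => h (s m)) atTop (𝓝 (h f)) := (hc.tendsto f).comp hf
    have t3 : Tendsto (fun m => N (s m)) atTop (𝓝 (N f)) := (hN.tendsto f).comp hf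
    constructor
    · refine le_of_tendsto_of_tendsto t1 (t2.sub_const _) ?_
      filter_upwards [e] with m hm using (hsR n m hm).1
    · refine le_of_tendsto_of_tendsto t3 (((t2.sub_const _).const_mul c).const_add _) ?_
      filter_upwards [e] with m hm using (hsR n m hm).2
  have hRf0 : R f₀ f := hRf 0
  obtain ⟨g, hg1, hg2, hg3⟩ := step f hRf0.1 hRf0.2
  have hkey : ∀ n, (h (s n) + h g) / 2 ≤ h (s (n + 1)) := by
    intro n
    rw [hsucc]
    exact hnx2 _ (hs0 n) g (Rtrans _ _ _ (hRf n) ⟨hg1, hg2⟩)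
  have t2 : Tendsto (fun n => (h (s n) + h g) / 2) atTop (𝓝 ((ℓ + h g) / 2)) :=
    (hlim.add_const _).div_const _
  have t3 : Tendsto (fun n => h (s (n + 1))) atTop (𝓝 ℓ) := hlim.comp (tendsto_add_atTop_nat 1)
  have := le_of_tendsto_of_tendsto' t2 t3 hkey
  linarith

/-! ### Function spaces on the tree -/

/-- A normed space of functions on `K`, with the sup norm, containing the indicator functions of
the sets `{C ≤ B | a ∈ C}` (and `{C ≤ B}` for `o = none`). -/
structure FunRep (E : Type*) [NormedAddCommGroup E] [NormedSpace ℝ E] where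
  /-- evaluation -/
  ev : K → E →L[ℝ] ℝ
  le : ∀ B f, |ev B f| ≤ ‖f‖
  norm_le : ∀ f c, 0 ≤ c → (∀ B, |ev B f| ≤ c) → ‖f‖ ≤ c
  /-- indicators -/
  dd : Option ℚ → K → E
  ev_dd_one : ∀ o B C, C ≤ B → (∀ a, o = some a → a ∈ C) → ev C (dd o B) = 1
  ev_dd_zero : ∀ o B C, ¬ (C ≤ B ∧ ∀ a, o = some a → a ∈ C) → ev C (dd o B) = 0

namespace FunRep

variable {E : Type*} [NormedAddCommGroup E] [NormedSpace ℝ E] (P : FunRep E)

theorem norm_dd_le (o : Option ℚ) (B : K) : ‖P.dd o B‖ ≤ 1 := by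
  refine P.norm_le _ 1 zero_le_one fun C => ?_
  by_cases h : C ≤ B ∧ ∀ a, o = some a → a ∈ C
  · rw [P.ev_dd_one o B C h.1 h.2]; simp
  · rw [P.ev_dd_zero o B C h]; simp

/-- The function on `↓B` coded by the list `l`. -/
noncomputable def fe : List (Option ℚ × ℚ) → K → E
  | [], _ => 0
  | p :: l, B => fe l B + (p.2 : ℝ) • P.dd p.1 B

open Classical in
/-- The values of the coded function. -/
noncomputable def val : List (Option ℚ × ℚ) → K → ℝ
  | [], _ => 0
  | p :: l, C => val l C + (if ∀ a, p.1 = some a → a ∈ C then (p.2 : ℝ) else 0)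

/-- Total coefficient mass. -/
def bd : List (Option ℚ × ℚ) → ℝ
  | [] => 0
  | p :: l => bd l + |(p.2 : ℝ)|

theorem bd_nonneg (l : List (Option ℚ × ℚ)) : 0 ≤ bd l := by
  induction l with
  | nil => exact le_rfl
  | cons p l ih => exact add_nonneg ih (abs_nonneg _)

theorem norm_fe_le (l : List (Option ℚ × ℚ)) (B : K) : ‖P.fe l B‖ ≤ bd l := by
  induction l with
  | nil => simp [fe, bd]
  | cons p l ih =>
    refine (norm_add_le _ _).trans (add_le_add ih ?_)
    rw [norm_smul, Real.norm_eq_abs]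
    have := mul_le_mul_of_nonneg_left (P.norm_dd_le p.1 B) (abs_nonneg (p.2 : ℝ))
    linarith

theorem ev_fe_of_le {l : List (Option ℚ × ℚ)} {B C : K} (h : C ≤ B) :
    P.ev C (P.fe l B) = val l C := by
  induction l with
  | nil => simp [fe, val]
  | cons p l ih =>
    show P.ev C (P.fe l B + (p.2 : ℝ) • P.dd p.1 B) = _
    rw [map_add, map_smul, ih, smul_eq_mul, val]
    congr 1
    split_ifs with h1
    · rw [P.ev_dd_one p.1 B C h h1, mul_one]
    · rw [P.ev_dd_zero p.1 B C fun h2 => h1 h2.2, mul_zero]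

theorem ev_fe_of_not_le {l : List (Option ℚ × ℚ)} {B C : K} (h : ¬ C ≤ B) :
    P.ev C (P.fe l B) = 0 := by
  induction l with
  | nil => simp [fe]
  | cons p l ih =>
    show P.ev C (P.fe l B + (p.2 : ℝ) • P.dd p.1 B) = _
    rw [map_add, map_smul, ih, smul_eq_mul, P.ev_dd_zero p.1 B C fun h2 => h h2.1]
    simp

/-- Supported strictly above `B`. -/
def SuppAbove (B : K) (y : E) : Prop := ∀ C, ¬ B < C → P.ev C y = 0

variable (N : E → ℝ)

/-- The infimum of `N` over all extensions above `B`. -/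
noncomputable def Nl (l : List (Option ℚ × ℚ)) (B : K) : ℝ :=
  ⨅ y : {y : E // P.SuppAbove B y}, N (P.fe l B + y.1)

variable {N}

theorem suppAbove_zero (B : K) : P.SuppAbove B 0 := fun C _ => by simp

theorem nn (hN : IsEquivNorm N) (x : E) : 0 ≤ N x := by
  obtain ⟨a, b, ha, _, hab⟩ := hN.equiv
  exact (mul_nonneg ha.le (norm_nonneg x)).trans (hab x).1

theorem Nl_le (hN : IsEquivNorm N) {l : List (Option ℚ × ℚ)} {B : K} {y : E}
    (hy : P.SuppAbove B y) : P.Nl N l B ≤ N (P.fe l B + y) :=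
  ciInf_le ⟨0, by rintro _ ⟨z, rfl⟩; exact nn hN _⟩ (⟨y, hy⟩ : {y : E // P.SuppAbove B y})

theorem Nl_nonneg (hN : IsEquivNorm N) (l : List (Option ℚ × ℚ)) (B : K) : 0 ≤ P.Nl N l B := by
  haveI : Nonempty {y : E // P.SuppAbove B y} := ⟨⟨0, P.suppAbove_zero B⟩⟩
  exact le_ciInf fun y => nn hN _

theorem exists_of_Nl_lt {l : List (Option ℚ × ℚ)} {B : K} {c : ℝ} (h : P.Nl N l B < c) :
    ∃ y, P.SuppAbove B y ∧ N (P.fe l B + y) < c := by
  haveI : Nonempty {y : E // P.SuppAbove B y} := ⟨⟨0, P.suppAbove_zero B⟩⟩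
  obtain ⟨y, hy⟩ := exists_lt_of_ciInf_lt h
  exact ⟨y.1, y.2, hy⟩

theorem not_lt_cases {B C : K} (h : ¬ B < C) : C ≤ B ∨ (¬ C ≤ B ∧ ¬ B ≤ C) := by
  by_cases h1 : C ≤ B
  · exact Or.inl h1
  · refine Or.inr ⟨h1, fun h2 => h (lt_of_le_of_ne h2 fun h3 => h1 h3.ge)⟩

/-- Passing to a longer branch changes things only above. -/
theorem suppAbove_shift {l : List (Option ℚ × ℚ)} {B B' : K} (hBB : B ≤ B') {y : E}
    (hy : P.SuppAbove B' y) : P.SuppAbove B (P.fe l B' - P.fe l B + y) := by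
  intro C hC
  rw [map_add, map_sub, hy C (fun h => hC (hBB.trans_lt h)), add_zero]
  rcases not_lt_cases hC with h | ⟨h1, h2⟩
  · rw [P.ev_fe_of_le h, P.ev_fe_of_le (h.trans hBB), sub_self]
  · have h3 : ¬ C ≤ B' := fun h => by
      rcases K.le_total_of_le h hBB with h4 | h4
      · exact h1 h4
      · exact h2 h4
    rw [P.ev_fe_of_not_le h1, P.ev_fe_of_not_le h3, sub_self]

theorem Nl_mono (hN : IsEquivNorm N) (l : List (Option ℚ × ℚ)) : Monotone (P.Nl N l) := by
  intro B B' hBB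
  haveI : Nonempty {y : E // P.SuppAbove B' y} := ⟨⟨0, P.suppAbove_zero B'⟩⟩
  refine le_ciInf fun y => ?_
  have h1 := P.Nl_le hN (l := l) (P.suppAbove_shift (l := l) hBB y.2)
  have e : P.fe l B + (P.fe l B' - P.fe l B + y.1) = P.fe l B' + y.1 := by abel
  rwa [e] at h1

theorem N_le_of (hN : IsEquivNorm N) : ∃ a b : ℝ, 0 < a ∧ 0 < b ∧
    (∀ x, a * ‖x‖ ≤ N x) ∧ (∀ x, N x ≤ b * ‖x‖) := by
  obtain ⟨a, b, ha, hab, h⟩ := hN.equiv
  exact ⟨a, b, ha, ha.trans_le hab, fun x => (h x).1, fun x => (h x).2⟩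

theorem exists_good (hN : IsEquivNorm N) : ∃ A : K, (∃ q, q ∈ A) ∧
    (∀ l, ∀ δ > 0, ∃ a ∈ A, P.Nl N l A < P.Nl N l (A.cut a) + δ) ∧
    (∀ l, ∀ δ > 0, {q : ℚ | A.Above q ∧ P.Nl N l (A.ins q) < P.Nl N l A + δ}.Infinite) := by
  obtain ⟨a₀, b, ha₀, hb, hlow, hup⟩ := N_le_of hN
  set w : List (Option ℚ × ℚ) → ℝ := fun l =>
    (1 / 2) ^ (Encodable.encode l) / (1 + b * bd l) with hw
  have hden : ∀ l, 0 < 1 + b * bd l := fun l => by
    have := mul_nonneg hb.le (bd_nonneg l); linarith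
  have hwpos : ∀ l, 0 < w l := fun l => div_pos (by positivity) (hden l)
  have hNlle : ∀ l B, P.Nl N l B ≤ b * bd l := fun l B => by
    have h1 := P.Nl_le hN (l := l) (P.suppAbove_zero B)
    rw [add_zero] at h1
    exact (h1.trans (hup _)).trans (mul_le_mul_of_nonneg_left (P.norm_fe_le l B) hb.le)
  have hterm : ∀ B l, w l * P.Nl N l B ≤ (1 / 2) ^ (Encodable.encode l) := fun B l => by
    rw [hw]
    simp only
    rw [div_mul_eq_mul_div, div_le_iff₀ (hden l)]
    refine mul_le_mul_of_nonneg_left ?_ (by positivity)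
    linarith [hNlle l B]
  have hsum : ∀ B, Summable fun l => w l * P.Nl N l B := fun B =>
    Summable.of_nonneg_of_le (fun l => mul_nonneg (hwpos l).le (P.Nl_nonneg hN l B)) (hterm B)
      summable_geometric_two_encode
  set ρ : K → ℝ := fun B => ∑' l, w l * P.Nl N l B with hρ
  have hρmono : Monotone ρ := fun B B' h => (hsum B).tsum_le_tsum
    (fun l => mul_le_mul_of_nonneg_left (P.Nl_mono hN l h) (hwpos l).le) (hsum B')
  have hρ0 : ∀ B, 0 ≤ ρ B := fun B =>
    tsum_nonneg fun l => mul_nonneg (hwpos l).le (P.Nl_nonneg hN l B)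
  have hone : ∀ l B B', B ≤ B' → w l * (P.Nl N l B' - P.Nl N l B) ≤ ρ B' - ρ B := by
    intro l B B' h
    have h1 : ρ B' - ρ B = ∑' l, (w l * P.Nl N l B' - w l * P.Nl N l B) :=
      ((hsum B').tsum_sub (hsum B)).symm
    rw [h1]
    have h2 := ((hsum B').sub (hsum B)).le_tsum l (fun j _ =>
      sub_nonneg.2 (mul_le_mul_of_nonneg_left (P.Nl_mono hN j h) (hwpos j).le))
    refine le_trans (le_of_eq ?_) h2
    ring
  obtain ⟨A, hne, hnomax, h1, h2⟩ := kurepa ρ hρmono hρ0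
  refine ⟨A, hne, fun l δ hδ => ?_, fun l δ hδ => ?_⟩
  · obtain ⟨a, ha, hlt⟩ := h1 (w l * δ) (mul_pos (hwpos l) hδ)
    refine ⟨a, ha, ?_⟩
    have h3 := hone l (A.cut a) A (K.cut_le A a)
    have h4 : w l * (P.Nl N l A - P.Nl N l (A.cut a)) < w l * δ := by linarith
    have := lt_of_mul_lt_mul_left h4 (hwpos l).le
    linarith
  · refine (h2 (w l * δ) (mul_pos (hwpos l) hδ)).mono ?_
    rintro q ⟨hq, hlt⟩
    refine ⟨hq, ?_⟩
    have h3 := hone l A (A.ins q) (K.lt_ins hq).le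
    have h4 : w l * (P.Nl N l (A.ins q) - P.Nl N l A) < w l * δ := by linarith
    have := lt_of_mul_lt_mul_left h4 (hwpos l).le
    linarith

theorem N_zero (hN : IsEquivNorm N) : N 0 = 0 := by
  have := hN.smul 0 0
  simpa using this

theorem N_sum_le (hN : IsEquivNorm N) {ι : Type*} (s : Finset ι) (g : ι → E) :
    N (∑ i ∈ s, g i) ≤ ∑ i ∈ s, N (g i) := by
  classical
  induction s using Finset.induction_on with
  | empty => simp [N_zero hN]
  | insert i s hi ih =>
    rw [Finset.sum_insert hi, Finset.sum_insert hi]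
    exact (hN.add_le _ _).trans (by linarith)

/-- Averaging over many successors. -/
theorem averaging (hN : IsEquivNorm N) {A : K} {l : List (Option ℚ × ℚ)}
    (h : ∀ δ > 0, {q : ℚ | A.Above q ∧ P.Nl N l (A.ins q) < P.Nl N l A + δ}.Infinite) :
    N (P.fe l A) ≤ P.Nl N l A := by
  classical
  obtain ⟨a₀, b, ha₀, hb, hlow, hup⟩ := N_le_of hN
  refine le_of_forall_pos_le_add fun δ hδ => ?_
  set R := (P.Nl N l A + δ / 2) / a₀ + ‖P.fe l A‖ with hR
  have hNl0 := P.Nl_nonneg hN l A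
  have hR0 : 0 ≤ R := add_nonneg (div_nonneg (by linarith) ha₀.le) (norm_nonneg _)
  obtain ⟨n, hn⟩ := exists_nat_gt (b * R / (δ / 2))
  have hn' : b * R < n * (δ / 2) := by rwa [div_lt_iff₀ (half_pos hδ)] at hn
  have hnpos : (0 : ℝ) < n := by
    have : 0 ≤ b * R := mul_nonneg hb.le hR0
    by_contra hcon
    have : (n : ℝ) ≤ 0 := not_lt.1 hcon
    nlinarith
  obtain ⟨s, hs, hcard⟩ := (h (δ / 2) (half_pos hδ)).exists_subset_card_eq n
  have hex : ∀ q ∈ s, ∃ y, P.SuppAbove (A.ins q) y ∧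
      N (P.fe l (A.ins q) + y) < P.Nl N l A + δ / 2 := fun q hq =>
    P.exists_of_Nl_lt (hs hq).2
  choose! y hy1 hy2 using hex
  set z : ℚ → E := fun q => P.fe l (A.ins q) + y q - P.fe l A with hz
  have hzR : ∀ q ∈ s, ‖z q‖ ≤ R := by
    intro q hq
    refine (norm_sub_le _ _).trans (add_le_add ?_ le_rfl)
    rw [le_div_iff₀ ha₀]
    have := hlow (P.fe l (A.ins q) + y q)
    linarith [hy2 q hq]
  have hz0 : ∀ q ∈ s, ∀ C, ¬ A.ins q ≤ C → P.ev C (z q) = 0 := by
    intro q hq C hC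
    have hq' : A.Above q := (hs hq).1
    rw [hz]
    simp only
    rw [map_sub, map_add, hy1 q hq C fun h' => hC h'.le, add_zero]
    by_cases h1 : C ≤ A
    · rw [P.ev_fe_of_le h1, P.ev_fe_of_le (h1.trans (K.lt_ins hq').le), sub_self]
    · have h2 : ¬ C ≤ A.ins q := fun h' => by
        rcases (K.le_ins_iff hq').1 h' with h3 | h3
        · exact hC h3.ge
        · exact h1 h3
      rw [P.ev_fe_of_not_le h1, P.ev_fe_of_not_le h2, sub_self]
  have hzsum : ‖∑ q ∈ s, z q‖ ≤ R := by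
    refine P.norm_le _ R hR0 fun C => ?_
    rw [map_sum]
    by_cases hex : ∃ q ∈ s, A.ins q ≤ C
    · obtain ⟨q, hq, hqC⟩ := hex
      rw [Finset.sum_eq_single_of_mem q hq]
      · exact (P.le C (z q)).trans (hzR q hq)
      · intro r hr hrq
        refine hz0 r hr C fun hrC => hrq ?_
        obtain ⟨h1, h2⟩ := K.of_ins_le (hs hq).1 hqC
        obtain ⟨h3, h4⟩ := K.of_ins_le (hs hr).1 hrC
        exact K.cut_inj h3 h1 (by rw [← h2, ← h4])
    · push Not at hex
      rw [Finset.sum_eq_zero fun q hq => hz0 q hq C (hex q hq), abs_zero]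
      exact hR0
  have hkey : (n : ℝ) • P.fe l A = ∑ q ∈ s, (P.fe l (A.ins q) + y q) + -∑ q ∈ s, z q := by
    rw [← sub_eq_add_neg, ← Finset.sum_sub_distrib]
    have : ∀ q ∈ s, P.fe l (A.ins q) + y q - z q = P.fe l A := fun q _ => by
      simp only [hz]; abel
    rw [Finset.sum_congr rfl this, Finset.sum_const, hcard, Nat.cast_smul_eq_nsmul]
  have h1 : N ((n : ℝ) • P.fe l A) = n * N (P.fe l A) := by
    rw [hN.smul, abs_of_pos hnpos]
  have h2 : N (∑ q ∈ s, (P.fe l (A.ins q) + y q)) ≤ n * (P.Nl N l A + δ / 2) := by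
    refine (N_sum_le hN s _).trans ?_
    refine (Finset.sum_le_sum fun q hq => (hy2 q hq).le).trans ?_
    rw [Finset.sum_const, hcard, nsmul_eq_mul]
  have h3 : N (-∑ q ∈ s, z q) ≤ b * R := by
    refine (hup _).trans (mul_le_mul_of_nonneg_left ?_ hb.le)
    rw [norm_neg]; exact hzsum
  have h4 := hN.add_le (∑ q ∈ s, (P.fe l (A.ins q) + y q)) (-∑ q ∈ s, z q)
  rw [← hkey, h1] at h4
  have h5 : n * N (P.fe l A) ≤ n * (P.Nl N l A + δ) := by nlinarith
  exact le_of_mul_le_mul_left h5 hnpos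

end FunRep

end Pool.Agent.LipSmooth
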