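import Pool.Agent.LipSmooth.Basic

/-!
# The two function spaces
-/

namespace Pool.Agent.LipSmooth

open Set Filter Topology BoundedContinuousFunction

/-- Bounded functions with prescribed limits along a family of filters. -/
def FSub {S ι : Type} [TopologicalSpace S] (G : Filter S) (c : ι → S) (Fl : ι → Filter S) :
    Submodule ℝ (BoundedContinuousFunction S ℝ) where
  carrier := {F | Tendsto F G (𝓝 0) ∧ ∀ i, Tendsto F (Fl i) (𝓝 (F (c i)))}
  add_mem' := by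
    intro F F' h h'
    refine ⟨?_, fun i => ?_⟩
    · have := h.1.add h'.1
      rw [add_zero] at this
      exact this
    · exact (h.2 i).add (h'.2 i)
  zero_mem' := by
    refine ⟨?_, fun i => ?_⟩
    · exact tendsto_const_nhds
    · exact tendsto_const_nhds
  smul_mem' := by
    intro r F h
    refine ⟨?_, fun i => ?_⟩
    · have := h.1.const_mul r
      rw [mul_zero] at this
      exact this
    · exact (h.2 i).const_mul r

theorem mem_FSub {S ι : Type} [TopologicalSpace S] {G : Filter S} {c : ι → S}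
    {Fl : ι → Filter S} {F : BoundedContinuousFunction S ℝ} :
    F ∈ FSub G c Fl ↔ (Tendsto F G (𝓝 0) ∧ ∀ i, Tendsto F (Fl i) (𝓝 (F (c i)))) := Iff.rfl

theorem FSub_closed {S ι : Type} [TopologicalSpace S] (G : Filter S) (c : ι → S)
    (Fl : ι → Filter S) : IsClosed (FSub G c Fl : Set (BoundedContinuousFunction S ℝ)) := by
  refine isClosed_of_closure_subset fun F hF => ?_
  rw [Metric.mem_closure_iff] at hF
  refine ⟨?_, fun i => ?_⟩
  · rw [Metric.tendsto_nhds]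
    intro ε hε
    obtain ⟨H, hH, hd⟩ := hF (ε / 2) (half_pos hε)
    have hH1 := hH.1
    rw [Metric.tendsto_nhds] at hH1
    filter_upwards [hH1 (ε / 2) (half_pos hε)] with x hx
    have h1 := (dist_coe_le_dist (f := F) (g := H) x).trans_lt hd
    calc dist (F x) 0 ≤ dist (F x) (H x) + dist (H x) 0 := dist_triangle _ _ _
      _ < ε := by linarith
  · rw [Metric.tendsto_nhds]
    intro ε hε
    obtain ⟨H, hH, hd⟩ := hF (ε / 3) (by positivity)
    have hH1 := hH.2 i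
    rw [Metric.tendsto_nhds] at hH1
    filter_upwards [hH1 (ε / 3) (by positivity)] with x hx
    have h1 := (dist_coe_le_dist (f := F) (g := H) x).trans_lt hd
    have h2 := (dist_coe_le_dist (f := F) (g := H) (c i)).trans_lt hd
    rw [dist_comm] at h2
    calc dist (F x) (F (c i)) ≤ dist (F x) (H x) + dist (H x) (H (c i)) +
          dist (H (c i)) (F (c i)) := dist_triangle4 _ _ _ _
      _ < ε := by linarith

/-- Injective enumeration of the rationals. -/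
def enc (q : ℚ) : ℕ := Encodable.encode q

theorem enc_injective : Function.Injective enc := Encodable.encode_injective

theorem enc_finite (n : ℕ) : {q : ℚ | enc q ≤ n}.Finite := by
  have h : {q : ℚ | enc q ≤ n} = enc ⁻¹' (Set.Iic n) := rfl
  rw [h]
  exact (Set.finite_Iic n).preimage enc_injective.injOn

/-- Cofinite-like filter at infinity on `K`: complements of finite unions of branches. -/
def covK : Filter K where
  sets := {S | ∃ s : Finset K, ∀ A, A ∉ S → ∃ B ∈ s, A ≤ B}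
  univ_sets := ⟨∅, fun A hA => absurd (mem_univ A) hA⟩
  sets_of_superset := fun {S T} ⟨s, hs⟩ hST => ⟨s, fun A hA => hs A fun h => hA (hST h)⟩
  inter_sets := fun {S T} ⟨s, hs⟩ ⟨t, ht⟩ => by
    classical
    refine ⟨s ∪ t, fun A hA => ?_⟩
    by_cases h : A ∈ S
    · obtain ⟨B, hB, hAB⟩ := ht A fun h' => hA ⟨h, h'⟩
      exact ⟨B, Finset.mem_union_right _ hB, hAB⟩
    · obtain ⟨B, hB, hAB⟩ := hs A h
      exact ⟨B, Finset.mem_union_left _ hB, hAB⟩

theorem eventually_covK {p : K → Prop} :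
    (∀ᶠ A in covK, p A) ↔ ∃ s : Finset K, ∀ A, ¬ p A → ∃ B ∈ s, A ≤ B := Iff.rfl

/-- The comb tree order. -/
def leT (t u : K × ℕ) : Prop :=
  (t.1 = u.1 ∧ t.2 ≤ u.2) ∨ ∃ q ∈ u.1, t.1 = u.1.cut q ∧ t.2 ≤ enc q

theorem leT.le {t u : K × ℕ} (h : leT t u) : t.1 ≤ u.1 := by
  rcases h with h | ⟨q, _, h, _⟩
  · rw [h.1]
  · rw [h]; exact K.cut_le _ _

/-- Filter at infinity on the comb tree. -/
def covT : Filter (K × ℕ) where
  sets := {S | ∃ s : Finset (K × ℕ), ∀ t, t ∉ S → ∃ u ∈ s, leT t u}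
  univ_sets := ⟨∅, fun A hA => absurd (mem_univ A) hA⟩
  sets_of_superset := fun {S T} ⟨s, hs⟩ hST => ⟨s, fun A hA => hs A fun h => hA (hST h)⟩
  inter_sets := fun {S T} ⟨s, hs⟩ ⟨t, ht⟩ => by
    classical
    refine ⟨s ∪ t, fun A hA => ?_⟩
    by_cases h : A ∈ S
    · obtain ⟨B, hB, hAB⟩ := ht A fun h' => hA ⟨h, h'⟩
      exact ⟨B, Finset.mem_union_right _ hB, hAB⟩
    · obtain ⟨B, hB, hAB⟩ := hs A h
      exact ⟨B, Finset.mem_union_left _ hB, hAB⟩

theorem eventually_covT {p : K × ℕ → Prop} :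
    (∀ᶠ t in covT, p t) ↔ ∃ s : Finset (K × ℕ), ∀ t, ¬ p t → ∃ u ∈ s, leT t u := Iff.rfl

/-- Left neighbourhoods of `B` in `K`. -/
def nbK (B : K) : Filter K := map B.cut B.ev

/-- Left neighbourhoods of `(B,0)` in the comb tree. -/
def nbT (B : K) : Filter (K × ℕ) where
  sets := {S | ∀ᶠ q in B.ev, ∀ n ≤ enc q, (B.cut q, n) ∈ S}
  univ_sets := by
    show ∀ᶠ q in B.ev, ∀ n ≤ enc q, (B.cut q, n) ∈ (univ : Set (K × ℕ))
    exact Eventually.of_forall fun _ _ _ => mem_univ _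
  sets_of_superset := fun {S T} hS hST => by
    have hS' : ∀ᶠ q in B.ev, ∀ n ≤ enc q, (B.cut q, n) ∈ S := hS
    show ∀ᶠ q in B.ev, ∀ n ≤ enc q, (B.cut q, n) ∈ T
    filter_upwards [hS'] with q hq n hn using hST (hq n hn)
  inter_sets := fun {S T} hS hT => by
    have hS' : ∀ᶠ q in B.ev, ∀ n ≤ enc q, (B.cut q, n) ∈ S := hS
    have hT' : ∀ᶠ q in B.ev, ∀ n ≤ enc q, (B.cut q, n) ∈ T := hT
    show ∀ᶠ q in B.ev, ∀ n ≤ enc q, (B.cut q, n) ∈ S ∩ T
    filter_upwards [hS', hT'] with q hq hq' n hn using ⟨hq n hn, hq' n hn⟩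

theorem eventually_nbT {B : K} {p : K × ℕ → Prop} :
    (∀ᶠ t in nbT B, p t) ↔ ∀ᶠ q in B.ev, ∀ n ≤ enc q, p (B.cut q, n) := Iff.rfl

/-- `C₀(σℚ)`. -/
def Y0 : Submodule ℝ (BoundedContinuousFunction K ℝ) := FSub covK id nbK

/-- `C₀` of the comb tree. -/
def X0 : Submodule ℝ (BoundedContinuousFunction (K × ℕ) ℝ) := FSub covT (fun B => (B, 0)) nbT

/-- The functions of `X0` vanishing on `K × {0}`. -/
def Z0 : Submodule ℝ (BoundedContinuousFunction (K × ℕ) ℝ) where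
  carrier := {F | F ∈ X0 ∧ ∀ A, F (A, 0) = 0}
  add_mem' := by
    intro F F' h h'
    exact ⟨X0.add_mem h.1 h'.1, fun A => by simp [h.2, h'.2]⟩
  zero_mem' := ⟨X0.zero_mem, fun A => rfl⟩
  smul_mem' := by
    intro r F h
    exact ⟨X0.smul_mem r h.1, fun A => by simp [h.2]⟩

theorem mem_Z0 {F : BoundedContinuousFunction (K × ℕ) ℝ} :
    F ∈ Z0 ↔ (F ∈ X0 ∧ ∀ A, F (A, 0) = 0) := Iff.rfl

theorem Z0_closed : IsClosed (Z0 : Set (BoundedContinuousFunction (K × ℕ) ℝ)) := by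
  have h : (Z0 : Set (BoundedContinuousFunction (K × ℕ) ℝ)) =
      (X0 : Set (BoundedContinuousFunction (K × ℕ) ℝ)) ∩ ⋂ A : K, {F | F (A, 0) = 0} := by
    ext F
    simp [mem_Z0]
  rw [h]
  refine (FSub_closed _ _ _).inter (isClosed_iInter fun A => ?_)
  exact isClosed_eq (BoundedContinuousFunction.evalCLM ℝ ((A, 0) : K × ℕ)).continuous
    continuous_const

instance : CompleteSpace Y0 := (FSub_closed covK id nbK).completeSpace_coe
instance : CompleteSpace X0 := (FSub_closed covT (fun B => (B, 0)) nbT).completeSpace_coe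
instance : CompleteSpace Z0 := Z0_closed.completeSpace_coe

/-! ### Elementary access -/

theorem Y0_cov {f : BoundedContinuousFunction K ℝ} (hf : f ∈ Y0) {ε : ℝ} (hε : 0 < ε) :
    ∃ s : Finset K, ∀ A, ε ≤ |f A| → ∃ B ∈ s, A ≤ B := by
  have h := hf.1
  rw [Metric.tendsto_nhds] at h
  obtain ⟨s, hs⟩ := eventually_covK.1 (h ε hε)
  refine ⟨s, fun A hA => hs A ?_⟩
  rw [Real.dist_0_eq_abs]; exact not_lt.2 hA

theorem Y0_lim {f : BoundedContinuousFunction K ℝ} (hf : f ∈ Y0) (B : K) {ε : ℝ}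
    (hε : 0 < ε) : ∀ᶠ q in B.ev, |f (B.cut q) - f B| < ε := by
  have h := hf.2 B
  rw [Metric.tendsto_nhds] at h
  exact h ε hε

theorem mem_Y0 {f : BoundedContinuousFunction K ℝ}
    (h1 : ∀ ε > 0, ∃ s : Finset K, ∀ A, ε ≤ |f A| → ∃ B ∈ s, A ≤ B)
    (h2 : ∀ B : K, ∀ ε > 0, ∀ᶠ q in B.ev, |f (B.cut q) - f B| < ε) : f ∈ Y0 := by
  refine ⟨?_, fun B => ?_⟩
  · rw [Metric.tendsto_nhds]
    intro ε hε
    obtain ⟨s, hs⟩ := h1 ε hε
    refine eventually_covK.2 ⟨s, fun A hA => hs A ?_⟩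
    rw [Real.dist_0_eq_abs] at hA; exact not_lt.1 hA
  · rw [Metric.tendsto_nhds]
    intro ε hε
    exact h2 B ε hε

theorem X0_cov {F : BoundedContinuousFunction (K × ℕ) ℝ} (hF : F ∈ X0) {ε : ℝ} (hε : 0 < ε) :
    ∃ s : Finset (K × ℕ), ∀ t, ε ≤ |F t| → ∃ u ∈ s, leT t u := by
  have h := hF.1
  rw [Metric.tendsto_nhds] at h
  obtain ⟨s, hs⟩ := eventually_covT.1 (h ε hε)
  refine ⟨s, fun A hA => hs A ?_⟩
  rw [Real.dist_0_eq_abs]; exact not_lt.2 hA

theorem X0_lim {F : BoundedContinuousFunction (K × ℕ) ℝ} (hF : F ∈ X0) (B : K) {ε : ℝ}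
    (hε : 0 < ε) : ∀ᶠ q in B.ev, ∀ n ≤ enc q, |F (B.cut q, n) - F (B, 0)| < ε := by
  have h := hF.2 B
  rw [Metric.tendsto_nhds] at h
  exact eventually_nbT.1 (h ε hε)

theorem mem_X0 {F : BoundedContinuousFunction (K × ℕ) ℝ}
    (h1 : ∀ ε > 0, ∃ s : Finset (K × ℕ), ∀ t, ε ≤ |F t| → ∃ u ∈ s, leT t u)
    (h2 : ∀ B : K, ∀ ε > 0, ∀ᶠ q in B.ev, ∀ n ≤ enc q, |F (B.cut q, n) - F (B, 0)| < ε) :
    F ∈ X0 := by
  refine ⟨?_, fun B => ?_⟩
  · rw [Metric.tendsto_nhds]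
    intro ε hε
    obtain ⟨s, hs⟩ := h1 ε hε
    refine eventually_covT.2 ⟨s, fun A hA => hs A ?_⟩
    rw [Real.dist_0_eq_abs] at hA; exact not_lt.1 hA
  · rw [Metric.tendsto_nhds]
    intro ε hε
    exact eventually_nbT.2 (h2 B ε hε)

end Pool.Agent.LipSmooth
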