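import Mathlib

/-!
# A smooth convex one-sided bump and its four-term symmetrisation
-/

namespace Pool.Agent.LipSmooth

open Set Filter Topology
open scoped ContDiff

/-- `θ(x) = 3 x exp(-1/x)` for `x > 0` and `0` otherwise. -/
noncomputable def theta (x : ℝ) : ℝ := 3 * (x * expNegInvGlue x)

theorem theta_of_nonpos {x : ℝ} (h : x ≤ 0) : theta x = 0 := by
  simp [theta, expNegInvGlue.zero_of_nonpos h]

theorem theta_nonneg (x : ℝ) : 0 ≤ theta x := by
  rcases le_total x 0 with h | h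
  · rw [theta_of_nonpos h]
  · exact mul_nonneg (by norm_num) (mul_nonneg h (expNegInvGlue.nonneg x))

theorem theta_contDiff : ContDiff ℝ ∞ theta :=
  contDiff_const.mul (contDiff_id.mul expNegInvGlue.contDiff)

theorem theta_mono : Monotone theta := by
  intro x y hxy
  rcases le_total x 0 with h | h
  · rw [theta_of_nonpos h]; exact theta_nonneg y
  · unfold theta
    have := expNegInvGlue.monotone hxy
    have h1 := expNegInvGlue.nonneg x
    have := mul_le_mul hxy this h1 (h.trans hxy)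
    linarith

theorem theta_one : 1 < theta 1 := by
  have h1 : expNegInvGlue 1 = Real.exp (-1) := by
    simp [expNegInvGlue]
  unfold theta
  rw [h1, one_mul, Real.exp_neg]
  have := Real.exp_one_lt_d9
  have h3 : Real.exp 1 < 3 := by linarith
  have hpos := Real.exp_pos 1
  rw [← div_eq_mul_inv, lt_div_iff₀ hpos]
  linarith

theorem theta_mul_le {a x : ℝ} (ha0 : 0 ≤ a) (ha1 : a ≤ 1) (hx : 0 ≤ x) :
    theta (a * x) ≤ a * theta x := by
  unfold theta
  have h1 : a * x ≤ x := by nlinarith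
  have h2 := expNegInvGlue.monotone h1
  have h3 := mul_le_mul_of_nonneg_left h2 (mul_nonneg ha0 hx)
  linarith

theorem theta_convex_pos {a b x y : ℝ} (ha : 0 < a) (hb : 0 < b) (hab : a + b = 1)
    (hx : 0 < x) (hy : 0 < y) : theta (a * x + b * y) ≤ a * theta x + b * theta y := by
  have hz : 0 < a * x + b * y := by positivity
  set z := a * x + b * y with hzdef
  unfold theta expNegInvGlue
  rw [if_neg (not_le.2 hx), if_neg (not_le.2 hy), if_neg (not_le.2 hz)]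
  have hA : 0 ≤ a * x / z := by positivity
  have hB : 0 ≤ b * y / z := by positivity
  have hconv := convexOn_exp.2 (mem_univ (-x⁻¹)) (mem_univ (-y⁻¹)) hA hB
    (by rw [← add_div]; exact div_self hz.ne')
  simp only [smul_eq_mul] at hconv
  have harg : a * x / z * -x⁻¹ + b * y / z * -y⁻¹ = -z⁻¹ := by
    field_simp
    linarith
  rw [harg] at hconv
  have := mul_le_mul_of_nonneg_left hconv hz.le
  have h2 : z * (a * x / z * Real.exp (-x⁻¹) + b * y / z * Real.exp (-y⁻¹)) =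
      a * x * Real.exp (-x⁻¹) + b * y * Real.exp (-y⁻¹) := by
    field_simp
  rw [h2] at this
  linarith

theorem theta_max (x : ℝ) : theta (max x 0) = theta x := by
  rcases le_total x 0 with h | h
  · rw [max_eq_right h, theta_of_nonpos h, theta_of_nonpos le_rfl]
  · rw [max_eq_left h]

theorem theta_convex {a b : ℝ} (ha : 0 ≤ a) (hb : 0 ≤ b) (hab : a + b = 1) (x y : ℝ) :
    theta (a * x + b * y) ≤ a * theta x + b * theta y := by
  have h1 : a * x + b * y ≤ a * max x 0 + b * max y 0 :=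
    add_le_add (mul_le_mul_of_nonneg_left (le_max_left _ _) ha)
      (mul_le_mul_of_nonneg_left (le_max_left _ _) hb)
  refine (theta_mono h1).trans ?_
  rw [← theta_max x, ← theta_max y]
  have hx : 0 ≤ max x 0 := le_max_right _ _
  have hy : 0 ≤ max y 0 := le_max_right _ _
  generalize max x 0 = u at hx
  generalize max y 0 = v at hy
  rcases ha.eq_or_lt with ha' | ha'
  · subst ha'
    have : b = 1 := by linarith
    subst this; simp
  rcases hb.eq_or_lt with hb' | hb'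
  · subst hb'
    have : a = 1 := by linarith
    subst this; simp
  rcases hx.eq_or_lt with hx' | hx'
  · subst hx'
    have := theta_mul_le hb (by linarith) hy
    simpa [theta_of_nonpos le_rfl] using this
  rcases hy.eq_or_lt with hy' | hy'
  · subst hy'
    have := theta_mul_le ha (by linarith) hx
    simpa [theta_of_nonpos le_rfl] using this
  exact theta_convex_pos ha' hb' hab hx' hy'

/-- The four-term symmetrisation. -/
noncomputable def Th (n : ℕ) (p q : ℝ) : ℝ :=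
  theta ((n : ℝ) ^ 2 * p + n * q - (n ^ 2 + 1)) + theta ((n : ℝ) ^ 2 * p - n * q - (n ^ 2 + 1)) +
    (theta (-((n : ℝ) ^ 2 * p) + n * q - (n ^ 2 + 1)) +
      theta (-((n : ℝ) ^ 2 * p) - n * q - (n ^ 2 + 1)))

theorem Th_nonneg (n : ℕ) (p q : ℝ) : 0 ≤ Th n p q :=
  add_nonneg (add_nonneg (theta_nonneg _) (theta_nonneg _))
    (add_nonneg (theta_nonneg _) (theta_nonneg _))

theorem Th_neg (n : ℕ) (p q : ℝ) : Th n (-p) (-q) = Th n p q := by
  unfold Th
  have e1 : (n : ℝ) ^ 2 * -p + n * -q - (n ^ 2 + 1) = -((n : ℝ) ^ 2 * p) - n * q - (n ^ 2 + 1) := by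
    ring
  have e2 : (n : ℝ) ^ 2 * -p - n * -q - (n ^ 2 + 1) = -((n : ℝ) ^ 2 * p) + n * q - (n ^ 2 + 1) := by
    ring
  have e3 : -((n : ℝ) ^ 2 * -p) + n * -q - (n ^ 2 + 1) = (n : ℝ) ^ 2 * p - n * q - (n ^ 2 + 1) := by
    ring
  have e4 : -((n : ℝ) ^ 2 * -p) - n * -q - (n ^ 2 + 1) = (n : ℝ) ^ 2 * p + n * q - (n ^ 2 + 1) := by
    ring
  rw [e1, e2, e3, e4]
  ring

theorem Th_eq_zero {n : ℕ} {p q : ℝ} (h : (n : ℝ) ^ 2 * |p| + n * |q| ≤ n ^ 2 + 1) :
    Th n p q = 0 := by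
  have hn : (0 : ℝ) ≤ n := Nat.cast_nonneg n
  have h1 := mul_le_mul_of_nonneg_left (le_abs_self p) (sq_nonneg (n : ℝ))
  have h2 := mul_le_mul_of_nonneg_left (neg_abs_le p) (sq_nonneg (n : ℝ))
  have h3 := mul_le_mul_of_nonneg_left (le_abs_self q) hn
  have h4 := mul_le_mul_of_nonneg_left (neg_abs_le q) hn
  unfold Th
  rw [theta_of_nonpos (by linarith), theta_of_nonpos (by linarith),
    theta_of_nonpos (by linarith), theta_of_nonpos (by linarith)]
  norm_num

theorem Th_gt {n : ℕ} {p q : ℝ} (h : (n : ℝ) ^ 2 + 2 ≤ n ^ 2 * |p| + n * |q|) :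
    1 < Th n p q := by
  have t1 := theta_one
  have key : ∀ x : ℝ, 1 ≤ x → 1 < theta x := fun x hx => t1.trans_le (theta_mono hx)
  unfold Th
  rcases abs_cases p with ⟨hp, _⟩ | ⟨hp, _⟩ <;> rcases abs_cases q with ⟨hq, _⟩ | ⟨hq, _⟩ <;>
    rw [hp, hq] at h
  · have := key _ (show (1 : ℝ) ≤ (n : ℝ) ^ 2 * p + n * q - (n ^ 2 + 1) by linarith)
    have := theta_nonneg ((n : ℝ) ^ 2 * p - n * q - (n ^ 2 + 1))
    have := theta_nonneg (-((n : ℝ) ^ 2 * p) + n * q - (n ^ 2 + 1))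
    have := theta_nonneg (-((n : ℝ) ^ 2 * p) - n * q - (n ^ 2 + 1))
    linarith
  · have := key _ (show (1 : ℝ) ≤ (n : ℝ) ^ 2 * p - n * q - (n ^ 2 + 1) by linarith)
    have := theta_nonneg ((n : ℝ) ^ 2 * p + n * q - (n ^ 2 + 1))
    have := theta_nonneg (-((n : ℝ) ^ 2 * p) + n * q - (n ^ 2 + 1))
    have := theta_nonneg (-((n : ℝ) ^ 2 * p) - n * q - (n ^ 2 + 1))
    linarith
  · have := key _ (show (1 : ℝ) ≤ -((n : ℝ) ^ 2 * p) + n * q - (n ^ 2 + 1) by linarith)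
    have := theta_nonneg ((n : ℝ) ^ 2 * p - n * q - (n ^ 2 + 1))
    have := theta_nonneg ((n : ℝ) ^ 2 * p + n * q - (n ^ 2 + 1))
    have := theta_nonneg (-((n : ℝ) ^ 2 * p) - n * q - (n ^ 2 + 1))
    linarith
  · have := key _ (show (1 : ℝ) ≤ -((n : ℝ) ^ 2 * p) - n * q - (n ^ 2 + 1) by linarith)
    have := theta_nonneg ((n : ℝ) ^ 2 * p - n * q - (n ^ 2 + 1))
    have := theta_nonneg (-((n : ℝ) ^ 2 * p) + n * q - (n ^ 2 + 1))
    have := theta_nonneg ((n : ℝ) ^ 2 * p + n * q - (n ^ 2 + 1))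
    linarith

theorem Th_convex (n : ℕ) {a b : ℝ} (ha : 0 ≤ a) (hb : 0 ≤ b) (hab : a + b = 1)
    (p p' q q' : ℝ) :
    Th n (a * p + b * p') (a * q + b * q') ≤ a * Th n p q + b * Th n p' q' := by
  have hc : ∀ c : ℝ, c = a * c + b * c := fun c => by rw [← add_mul, hab, one_mul]
  unfold Th
  have h1 := theta_convex ha hb hab ((n : ℝ) ^ 2 * p + n * q - (n ^ 2 + 1))
    ((n : ℝ) ^ 2 * p' + n * q' - (n ^ 2 + 1))
  have h2 := theta_convex ha hb hab ((n : ℝ) ^ 2 * p - n * q - (n ^ 2 + 1))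
    ((n : ℝ) ^ 2 * p' - n * q' - (n ^ 2 + 1))
  have h3 := theta_convex ha hb hab (-((n : ℝ) ^ 2 * p) + n * q - (n ^ 2 + 1))
    (-((n : ℝ) ^ 2 * p') + n * q' - (n ^ 2 + 1))
  have h4 := theta_convex ha hb hab (-((n : ℝ) ^ 2 * p) - n * q - (n ^ 2 + 1))
    (-((n : ℝ) ^ 2 * p') - n * q' - (n ^ 2 + 1))
  have e := hc ((n : ℝ) ^ 2 + 1)
  have e1 : (n : ℝ) ^ 2 * (a * p + b * p') + n * (a * q + b * q') - (n ^ 2 + 1) =
      a * ((n : ℝ) ^ 2 * p + n * q - (n ^ 2 + 1)) + b * ((n : ℝ) ^ 2 * p' + n * q' - (n ^ 2 + 1)) := by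
    linear_combination -e
  have e2 : (n : ℝ) ^ 2 * (a * p + b * p') - n * (a * q + b * q') - (n ^ 2 + 1) =
      a * ((n : ℝ) ^ 2 * p - n * q - (n ^ 2 + 1)) + b * ((n : ℝ) ^ 2 * p' - n * q' - (n ^ 2 + 1)) := by
    linear_combination -e
  have e3 : -((n : ℝ) ^ 2 * (a * p + b * p')) + n * (a * q + b * q') - (n ^ 2 + 1) =
      a * (-((n : ℝ) ^ 2 * p) + n * q - (n ^ 2 + 1)) +
        b * (-((n : ℝ) ^ 2 * p') + n * q' - (n ^ 2 + 1)) := by
    linear_combination -e
  have e4 : -((n : ℝ) ^ 2 * (a * p + b * p')) - n * (a * q + b * q') - (n ^ 2 + 1) =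
      a * (-((n : ℝ) ^ 2 * p) - n * q - (n ^ 2 + 1)) +
        b * (-((n : ℝ) ^ 2 * p') - n * q' - (n ^ 2 + 1)) := by
    linear_combination -e
  rw [e1, e2, e3, e4]
  linarith

theorem Th_contDiff (n : ℕ) : ContDiff ℝ ∞ (fun z : ℝ × ℝ => Th n z.1 z.2) := by
  unfold Th
  refine ContDiff.add (ContDiff.add ?_ ?_) (ContDiff.add ?_ ?_) <;>
    refine theta_contDiff.comp ?_ <;> fun_prop

end Pool.Agent.LipSmooth
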